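import Pool.Agent.K7.H48.PC.Stm2

/-!
Job ALT of project PC2 (helper39): alternation gives zeros.
-/

set_option autoImplicit false

namespace Pool.Agent.K7.H48.PC

open Set

theorem stAlt : StAlt := by
  intro m
  induction m with
  | zero =>
    intro s f _ _ _
    exact ⟨∅, rfl, by simp⟩
  | succ m ih =>
    intro s f hf hs hpos
    obtain ⟨Z, hZ, hZ2⟩ := ih s f hf (fun j hj => hs j (by omega)) (fun j hj => hpos j (by omega))
    have hlt := hs m (by omega)
    set g : ℝ → ℝ := fun t => (-1 : ℝ) ^ m * f t with hg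
    have hgc : Continuous g := continuous_const.mul hf
    have h1 : 0 < g (s m) := hpos m (by omega)
    have h2 : g (s (m + 1)) < 0 := by
      have := hpos (m + 1) le_rfl
      rw [pow_succ] at this
      simp only [hg]
      linarith
    obtain ⟨z, hz, hz0⟩ := intermediate_value_Ioo' hlt.le hgc.continuousOn ⟨h2, h1⟩
    have hfz : f z = 0 := by
      simp only [hg] at hz0
      exact (mul_eq_zero.1 hz0).resolve_left (pow_ne_zero _ (by norm_num))
    have hmono : s 0 ≤ s m := by
      have : ∀ k, k ≤ m → s 0 ≤ s k := by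
        intro k
        induction k with
        | zero => intro _; exact le_rfl
        | succ k ihk => intro hk; exact (ihk (by omega)).trans (hs k (by omega)).le
      exact this m le_rfl
    have hzZ : z ∉ Z := fun h => absurd (hZ2 z h).1.2 (not_lt.2 hz.1.le)
    refine ⟨insert z Z, by rw [Finset.card_insert_of_notMem hzZ, hZ], ?_⟩
    intro w hw
    rcases Finset.mem_insert.1 hw with rfl | hw
    · exact ⟨⟨hmono.trans_lt hz.1, hz.2⟩, hfz⟩
    · exact ⟨⟨(hZ2 w hw).1.1, (hZ2 w hw).1.2.trans hlt⟩, (hZ2 w hw).2⟩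

end Pool.Agent.K7.H48.PC
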