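import Pool.Agent.K7.H48.PC.Stm2

namespace Pool.Agent.K7.H48.PC

open Set

/-- a point of the comb with abscissa near a wall lies on the base -/
lemma comb_wall (e d : ℝ) (K : ℕ) (he : 0 < e) (hd : d < e) (z : ℝ × ℝ) (hz : z ∈ combSet e K)
    (i : ℕ) (h : |z.1 - (2 * e * i + e)| ≤ d) : z.2 = 0 := by
  rcases hz with ⟨k, _, hk, _, _⟩ | ⟨h0, _, _⟩
  · exfalso
    rw [hk] at h
    have h1 : |2 * e * (k:ℝ) - (2 * e * i + e)| < e := lt_of_le_of_lt h hd
    rw [abs_lt] at h1
    have h2 : (i:ℝ) < k := by
      by_contra hcon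
      push Not at hcon
      nlinarith [h1.1]
    have h3 : (k:ℝ) < i + 1 := by
      by_contra hcon
      push Not at hcon
      nlinarith [h1.2]
    have h2' : i < k := by exact_mod_cast h2
    have h3' : k < i + 1 := by exact_mod_cast h3
    omega
  · exact h0

theorem stCombAlg (hAlt : StAlt) : StCombAlg := by
  intro e d K n P Q he hd hK hQ h1 h2
  set f : ℝ → ℝ := fun t => Q.eval t - e with hf
  have hfc : Continuous f := by rw [hf]; fun_prop
  have hPc : Continuous (fun t => P.eval t) := by fun_prop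
  -- the tips
  have htip : ∀ i : ℕ, ∃ t : ℝ, i ≤ K → (t ∈ Icc (0:ℝ) 1 ∧ |2 * e * i - P.eval t| ≤ d ∧ 0 < f t) := by
    intro i
    by_cases hi : i ≤ K
    · obtain ⟨t, ht, hx, hy⟩ := h1 (2 * e * i, 2 * e) (Or.inl ⟨i, hi, rfl, by simp; linarith, le_refl _⟩)
      refine ⟨t, fun _ => ⟨ht, hx, ?_⟩⟩
      have := (abs_le.mp hy).2
      simp only [hf]
      simp only at this
      linarith
    · exact ⟨0, fun h => absurd h hi⟩
  choose t ht using htip
  -- distance between tips
  have hinj : ∀ i j, i ≤ K → j ≤ K → i < j → t i ≠ t j := by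
    intro i j hi hj hij heq
    have a := (ht i hi).2.1
    have b := (ht j hj).2.1
    rw [heq] at a
    have a' := abs_le.mp a
    have b' := abs_le.mp b
    have hij' : (i:ℝ) + 1 ≤ j := by exact_mod_cast hij
    nlinarith [a'.1, a'.2, b'.1, b'.2]
  -- between two tips
  have hbet : ∀ i j, i ≤ K → j ≤ K → t i < t j → ∃ s ∈ Ioo (t i) (t j), f s < 0 := by
    intro i j hi hj hij
    have hwall : ∀ k : ℕ, ∀ s ∈ Icc (0:ℝ) 1, P.eval s = 2 * e * k + e → f s < 0 := by
      intro k s hs hPs
      obtain ⟨z, hz, hz1, hz2⟩ := h2 s hs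
      rw [hPs] at hz1
      have h0 := comb_wall e d K he hd z hz k hz1
      rw [h0] at hz2
      have := (abs_le.mp hz2).1
      simp only [hf]
      linarith
    have a := abs_le.mp (ht i hi).2.1
    have b := abs_le.mp (ht j hj).2.1
    have hne : i ≠ j := by
      intro h; rw [h] at hij; exact lt_irrefl _ hij
    have hsub : Icc (t i) (t j) ⊆ Icc (0:ℝ) 1 :=
      Icc_subset_Icc (ht i hi).1.1 (ht j hj).1.2
    rcases lt_or_gt_of_ne hne with h | h
    · have h' : (i:ℝ) + 1 ≤ j := by exact_mod_cast h
      have e1 : P.eval (t i) < 2 * e * i + e := by linarith [a.1]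
      have e2 : 2 * e * i + e < P.eval (t j) := by nlinarith [b.2]
      obtain ⟨s, hs, hPs⟩ := intermediate_value_Ioo hij.le hPc.continuousOn ⟨e1, e2⟩
      exact ⟨s, hs, hwall i s (hsub (Ioo_subset_Icc_self hs)) hPs⟩
    · have h' : (j:ℝ) + 1 ≤ i := by exact_mod_cast h
      have e1 : P.eval (t j) < 2 * e * j + e := by linarith [b.1]
      have e2 : 2 * e * j + e < P.eval (t i) := by nlinarith [a.2]
      obtain ⟨s, hs, hPs⟩ := intermediate_value_Ioo' hij.le hPc.continuousOn ⟨e1, e2⟩
      exact ⟨s, hs, hwall j s (hsub (Ioo_subset_Icc_self hs)) hPs⟩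
  -- sort the tips
  classical
  set T : Finset ℝ := (Finset.range (K+1)).image t with hT
  have hcard : T.card = K + 1 := by
    rw [hT, Finset.card_image_of_injOn, Finset.card_range]
    intro i hi j hj hij
    simp only [Finset.coe_range, mem_Iio] at hi hj
    by_contra hne
    rcases lt_or_gt_of_ne hne with h | h
    · exact hinj i j (by omega) (by omega) h hij
    · exact hinj j i (by omega) (by omega) h hij.symm
  have hmemT : ∀ x ∈ T, ∃ i, i ∈ Finset.range (K+1) ∧ t i = x := by
    intro x hx
    rw [hT, Finset.mem_image] at hx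
    exact hx
  let τ : ℕ → ℝ := fun k => if h : k < K + 1 then T.orderEmbOfFin hcard ⟨k, h⟩ else 0
  have hτmem : ∀ k, k ≤ K → ∃ i, i ≤ K ∧ τ k = t i := by
    intro k hk
    have hk' : k < K + 1 := by omega
    have hm := Finset.orderEmbOfFin_mem T hcard ⟨k, hk'⟩
    obtain ⟨i, hi, hti⟩ := hmemT _ hm
    refine ⟨i, by simpa [Nat.lt_succ_iff] using hi, ?_⟩
    simp only [τ, hk', dif_pos]
    exact hti.symm
  have hτlt : ∀ k, k < K → τ k < τ (k+1) := by
    intro k hk
    have hk1 : k < K + 1 := by omega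
    have hk2 : k + 1 < K + 1 := by omega
    simp only [τ, hk1, hk2, dif_pos]
    apply (T.orderEmbOfFin hcard).strictMono
    simp [Fin.lt_def]
  have hs : ∀ k, ∃ s : ℝ, k < K → (τ k < s ∧ s < τ (k+1) ∧ f s < 0) := by
    intro k
    by_cases hk : k < K
    · obtain ⟨i, hi, hti⟩ := hτmem k (by omega)
      obtain ⟨j, hj, htj⟩ := hτmem (k+1) (by omega)
      have hlt := hτlt k hk
      rw [hti, htj] at hlt
      obtain ⟨s, hs1, hs2⟩ := hbet i j hi hj hlt
      refine ⟨s, fun _ => ⟨?_, ?_, hs2⟩⟩
      · rw [hti]; exact hs1.1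
      · rw [htj]; exact hs1.2
    · exact ⟨0, fun h => absurd h hk⟩
  choose s hs using hs
  let σ : ℕ → ℝ := fun k => if Even k then τ (k/2) else s (k/2)
  obtain ⟨Z, hZc, hZ⟩ := hAlt (2*K) σ f hfc (by
    intro j hj
    rcases Nat.even_or_odd' j with ⟨q, hq | hq⟩
    · subst hq
      have e1 : Even (2*q) := even_two_mul q
      have e2 : ¬ Even (2*q+1) := by simp
      have e3 : (2*q)/2 = q := by omega
      have e4 : (2*q+1)/2 = q := by omega
      simp only [σ, e1, e2, if_true, if_false, e3, e4]
      exact (hs q (by omega)).1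
    · subst hq
      have e1 : ¬ Even (2*q+1) := by simp
      have e2 : Even (2*q+1+1) := by
        have : 2*q+1+1 = 2*(q+1) := by ring
        rw [this]; exact even_two_mul _
      have e3 : (2*q+1)/2 = q := by omega
      have e4 : (2*q+1+1)/2 = q+1 := by omega
      simp only [σ, e1, e2, if_true, if_false, e3, e4]
      exact (hs q (by omega)).2.1) (by
    intro j hj
    rcases Nat.even_or_odd' j with ⟨q, hq | hq⟩
    · subst hq
      have e1 : Even (2*q) := even_two_mul q
      have e3 : (2*q)/2 = q := by omega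
      simp only [σ, e1, if_true, e3, e1.neg_one_pow, one_mul]
      obtain ⟨i, hi, hti⟩ := hτmem q (by omega)
      rw [hti]
      exact (ht i hi).2.2
    · subst hq
      have e1 : ¬ Even (2*q+1) := by simp
      have e1' : Odd (2*q+1) := odd_two_mul_add_one q
      have e3 : (2*q+1)/2 = q := by omega
      simp only [σ, e1, if_false, e3, e1'.neg_one_pow]
      have := (hs q (by omega)).2.2
      linarith)
  -- the polynomial
  have hR : Q - Polynomial.C e ≠ 0 := by
    intro h
    have h0 := (ht 0 (by omega)).2.2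
    have : (Q - Polynomial.C e).eval (t 0) = 0 := by rw [h]; simp
    simp only [Polynomial.eval_sub, Polynomial.eval_C] at this
    simp only [hf] at h0
    linarith
  have hsubset : Z ⊆ (Q - Polynomial.C e).roots.toFinset := by
    intro z hz
    rw [Multiset.mem_toFinset, Polynomial.mem_roots hR, Polynomial.IsRoot.def]
    have := (hZ z hz).2
    simp only [hf] at this
    simp only [Polynomial.eval_sub, Polynomial.eval_C]
    exact this
  have hdeg : (Q - Polynomial.C e).natDegree ≤ n := by
    apply Polynomial.natDegree_le_of_degree_le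
    refine (Polynomial.degree_sub_le _ _).trans (max_le hQ ?_)
    exact Polynomial.degree_C_le.trans (by exact_mod_cast Nat.zero_le n)
  calc 2 * K = Z.card := hZc.symm
    _ ≤ (Q - Polynomial.C e).roots.toFinset.card := Finset.card_le_card hsubset
    _ ≤ Multiset.card (Q - Polynomial.C e).roots := Multiset.toFinset_card_le _
    _ ≤ (Q - Polynomial.C e).natDegree := Polynomial.card_roots' _
    _ ≤ n := hdeg

end Pool.Agent.K7.H48.PC
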