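import Pool.Agent.K7.H48.PC.Stm2

/-!
Jobs COMBIN and MEANIN of project PC2: the comb and the meander are in `Gamma1`.
-/

namespace Pool.Agent.K7.H48.PC

open Set

/-- the point of the Euclidean plane with given coordinates -/
noncomputable def eu (z : ℝ × ℝ) : EuclideanSpace ℝ (Fin 2) := !₂[z.1, z.2]

theorem eu_zero (z : ℝ × ℝ) : eu z 0 = z.1 := by simp [eu]

theorem eu_one (z : ℝ × ℝ) : eu z 1 = z.2 := by simp [eu]

theorem dist_eu (z w : ℝ × ℝ) : dist (eu z) (eu w) =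
    Real.sqrt ((z.1 - w.1) ^ 2 + (z.2 - w.2) ^ 2) := by
  rw [EuclideanSpace.dist_eq, Fin.sum_univ_two, eu_zero, eu_zero, eu_one, eu_one,
    Real.dist_eq, Real.dist_eq, sq_abs, sq_abs]

theorem image_seg (z w : ℝ × ℝ) :
    (fun p : EuclideanSpace ℝ (Fin 2) => ((p 0, p 1) : ℝ × ℝ)) '' segment ℝ (eu z) (eu w)
      = segment ℝ z w := by
  ext x
  constructor
  · rintro ⟨p, ⟨a, b, ha, hb, hab, rfl⟩, rfl⟩
    refine ⟨a, b, ha, hb, hab, ?_⟩
    ext <;> simp [eu]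
  · rintro ⟨a, b, ha, hb, hab, rfl⟩
    refine ⟨a • eu z + b • eu w, ⟨a, b, ha, hb, hab, rfl⟩, ?_⟩
    ext <;> simp [eu]

/-- polygons with `m` edges of length at most `L`, `m L ≤ 1` -/
theorem polyIn (h : StPoly) (m : ℕ) (w : ℕ → ℝ × ℝ) (L : ℝ) (hm : 1 ≤ m) (hL : 0 ≤ L)
    (hw : ∀ j, j < m → ((w j).1 - (w (j + 1)).1) ^ 2 + ((w j).2 - (w (j + 1)).2) ^ 2 ≤ L ^ 2)
    (hmL : (m : ℝ) * L ≤ 1) :
    (⋃ j ∈ Finset.range m, segment ℝ (w j) (w (j + 1))) ∈ Gamma1 := by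
  obtain ⟨φ, h1, h2, h3⟩ := h m (fun j => eu (w j)) hm (by
    calc (∑ j ∈ Finset.range m, dist (eu (w j)) (eu (w (j + 1))))
        ≤ ∑ j ∈ Finset.range m, L := by
          apply Finset.sum_le_sum
          intro j hj
          rw [dist_eu]
          exact Real.sqrt_le_iff.mpr ⟨hL, hw j (Finset.mem_range.mp hj)⟩
      _ = (m : ℝ) * L := by simp
      _ ≤ 1 := hmL)
  refine ⟨φ, h1, h2, ?_⟩
  have e1 : (fun t : ℝ => ((φ t 0, φ t 1) : ℝ × ℝ)) '' Icc 0 1
      = (fun p : EuclideanSpace ℝ (Fin 2) => ((p 0, p 1) : ℝ × ℝ)) '' (φ '' Icc 0 1) := by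
    rw [image_image]
  rw [e1, h3, image_iUnion₂]
  exact iUnion₂_congr fun j _ => (image_seg _ _).symm

theorem seg_vert (x a b : ℝ) (hab : a ≤ b) :
    segment ℝ ((x, a) : ℝ × ℝ) (x, b) = {z | z.1 = x ∧ a ≤ z.2 ∧ z.2 ≤ b} := by
  rw [← Prod.image_mk_segment_right, segment_eq_Icc hab]
  ext z
  constructor
  · rintro ⟨y, hy, rfl⟩
    exact ⟨rfl, hy.1, hy.2⟩
  · rintro ⟨h1, h2, h3⟩
    exact ⟨z.2, ⟨h2, h3⟩, by ext <;> simp [h1]⟩

theorem seg_hor (y a b : ℝ) (hab : a ≤ b) :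
    segment ℝ ((a, y) : ℝ × ℝ) (b, y) = {z | z.2 = y ∧ a ≤ z.1 ∧ z.1 ≤ b} := by
  rw [← Prod.image_mk_segment_left, segment_eq_Icc hab]
  ext z
  constructor
  · rintro ⟨y, hy, rfl⟩
    exact ⟨rfl, hy.1, hy.2⟩
  · rintro ⟨h1, h2, h3⟩
    exact ⟨z.1, ⟨h2, h3⟩, by ext <;> simp [h1]⟩

/-- the vertices of the comb -/
noncomputable def cv (e : ℝ) (j : ℕ) : ℝ × ℝ :=
  if j % 3 = 0 then (2 * e * ((j / 3 : ℕ) : ℝ), 2 * e)
  else if j % 3 = 1 then (2 * e * ((j / 3 : ℕ) : ℝ), 0)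
  else (2 * e * (((j / 3 : ℕ) : ℝ) + 1), 0)

theorem cv0 (e : ℝ) (i : ℕ) : cv e (3 * i) = (2 * e * (i : ℝ), 2 * e) := by
  have h1 : (3 * i) % 3 = 0 := by omega
  have h2 : (3 * i) / 3 = i := by omega
  simp [cv, h1, h2]

theorem cv1 (e : ℝ) (i : ℕ) : cv e (3 * i + 1) = (2 * e * (i : ℝ), 0) := by
  have h1 : (3 * i + 1) % 3 = 1 := by omega
  have h2 : (3 * i + 1) / 3 = i := by omega
  simp [cv, h1, h2]

theorem cv2 (e : ℝ) (i : ℕ) : cv e (3 * i + 2) = (2 * e * ((i : ℝ) + 1), 0) := by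
  have h1 : (3 * i + 2) % 3 = 2 := by omega
  have h2 : (3 * i + 2) / 3 = i := by omega
  simp [cv, h1, h2]

theorem cv3 (e : ℝ) (i : ℕ) : cv e (3 * i + 3) = (2 * e * ((i : ℝ) + 1), 2 * e) := by
  have := cv0 e (i + 1)
  rw [show 3 * (i + 1) = 3 * i + 3 by ring] at this
  rw [this]
  push_cast
  rfl

theorem mod3_cases (j : ℕ) : ∃ i, j = 3 * i ∨ j = 3 * i + 1 ∨ j = 3 * i + 2 :=
  ⟨j / 3, by omega⟩

theorem stCombIn (h : StPoly) : StCombIn := by
  intro e K he hK hlen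
  have key : combSet e K = ⋃ j ∈ Finset.range (3 * K), segment ℝ (cv e j) (cv e (j + 1)) := by
    ext z
    simp only [mem_iUnion, Finset.mem_range, exists_prop]
    constructor
    · rintro (⟨i, hi, h1, h2, h3⟩ | ⟨h1, h2, h3⟩)
      · rcases Nat.lt_or_ge i K with hiK | hiK
        · refine ⟨3 * i, by omega, ?_⟩
          rw [cv0, cv1, segment_symm, seg_vert _ _ _ (by positivity)]
          exact ⟨h1, h2, h3⟩
        · have hiK' : i = K := le_antisymm hi hiK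
          subst hiK'
          obtain ⟨i, rfl⟩ : ∃ i', i = i' + 1 := ⟨i - 1, by omega⟩
          refine ⟨3 * i + 2, by omega, ?_⟩
          rw [show 3 * i + 2 + 1 = 3 * i + 3 by rfl, cv2, cv3, seg_vert _ _ _ (by positivity)]
          refine ⟨?_, h2, h3⟩
          rw [h1]; push_cast; rfl
      · -- the base
        have h2e : 0 < 2 * e := by positivity
        by_cases hz : z.1 = 2 * e * K
        · obtain ⟨i, rfl⟩ : ∃ i', K = i' + 1 := ⟨K - 1, by omega⟩
          refine ⟨3 * i + 1, by omega, ?_⟩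
          rw [show 3 * i + 1 + 1 = 3 * i + 2 by rfl, cv1, cv2, seg_hor _ _ _ (by nlinarith)]
          refine ⟨h1, ?_, ?_⟩
          · rw [hz]; push_cast; nlinarith
          · rw [hz]; push_cast; exact le_rfl
        · have hlt : z.1 < 2 * e * K := lt_of_le_of_ne h3 hz
          set i := ⌊z.1 / (2 * e)⌋₊ with hi
          have hi1 : (i : ℝ) ≤ z.1 / (2 * e) := Nat.floor_le (by positivity)
          have hi2 : z.1 / (2 * e) < (i : ℝ) + 1 := Nat.lt_floor_add_one _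
          have hi3 : z.1 / (2 * e) < K := by
            rw [div_lt_iff₀ h2e]; linarith
          have hiK : i < K := by
            have : (i : ℝ) < K := lt_of_le_of_lt hi1 hi3
            exact_mod_cast this
          refine ⟨3 * i + 1, by omega, ?_⟩
          rw [show 3 * i + 1 + 1 = 3 * i + 2 by rfl, cv1, cv2, seg_hor _ _ _ (by nlinarith)]
          refine ⟨h1, ?_, ?_⟩
          · rw [le_div_iff₀ h2e] at hi1; linarith
          · rw [div_lt_iff₀ h2e] at hi2; nlinarith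
    · rintro ⟨j, hj, hz⟩
      obtain ⟨i, rfl | rfl | rfl⟩ := mod3_cases j
      · rw [cv0, cv1, segment_symm, seg_vert _ _ _ (by positivity)] at hz
        exact Or.inl ⟨i, by omega, hz.1, hz.2.1, hz.2.2⟩
      · rw [show 3 * i + 1 + 1 = 3 * i + 2 by rfl, cv1, cv2, seg_hor _ _ _ (by nlinarith)] at hz
        refine Or.inr ⟨hz.1, ?_, ?_⟩
        · refine le_trans ?_ hz.2.1
          positivity
        · refine le_trans hz.2.2 ?_
          have : (i : ℝ) + 1 ≤ K := by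
            have : i + 1 ≤ K := by omega
            exact_mod_cast this
          exact mul_le_mul_of_nonneg_left this (by positivity)
      · rw [show 3 * i + 2 + 1 = 3 * i + 3 by rfl, cv2, cv3, seg_vert _ _ _ (by positivity)] at hz
        refine Or.inl ⟨i + 1, by omega, ?_, hz.2.1, hz.2.2⟩
        rw [hz.1]; push_cast; rfl
  rw [key]
  refine polyIn h (3 * K) (cv e) (2 * e) (by omega) (by positivity) ?_ ?_
  · intro j hj
    obtain ⟨i, rfl | rfl | rfl⟩ := mod3_cases j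
    · rw [cv0, cv1]; simp
    · rw [show 3 * i + 1 + 1 = 3 * i + 2 by rfl, cv1, cv2]
      dsimp only
      apply le_of_eq; ring
    · rw [show 3 * i + 2 + 1 = 3 * i + 3 by rfl, cv2, cv3]
      dsimp only
      apply le_of_eq; ring
  · push_cast
    linarith

end Pool.Agent.K7.H48.PC
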