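import Mathlib

/-!
Statements for MP_d7cd59_an (polynomial curves approximating curves of bounded length).
StFav : the kernel estimate;  StConv : the approximation theorem for Lipschitz functions;
StGeo : re-parametrisation of a rectifiable curve of length at most one.
-/

namespace Pool.Agent.K7.H48.PC

open Set

/-- kernel estimate -/
def StFav : Prop := ∀ N : ℕ, 1 ≤ N → ∃ B : ℕ → ℝ,
  ∫ t in (0:ℝ)..Real.pi,
    |(Real.pi - t) / 2 - ∑ k ∈ Finset.range N, B k * Real.sin ((k:ℝ) * t)|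
      ≤ Real.pi ^ 2 / (4 * (N:ℝ))

/-- approximation of an even periodic Lipschitz function by cosine polynomials -/
def StConv : Prop := ∀ N : ℕ, 1 ≤ N → ∀ (M : NNReal) (f : ℝ → ℝ),
  (∀ x, f (-x) = f x) → (∀ x, f (x + 2 * Real.pi) = f x) → LipschitzWith M f →
  ∃ c : ℕ → ℝ, ∀ x, |f x - ∑ k ∈ Finset.range N, c k * Real.cos ((k:ℝ) * x)|
    ≤ (M:ℝ) * Real.pi / (2 * (N:ℝ))

/-- re-parametrisation -/
def StGeo : Prop := ∀ φ : ℝ → EuclideanSpace ℝ (Fin 2),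
  ContinuousOn φ (Icc 0 1) → eVariationOn φ (Icc 0 1) ≤ 1 →
  ∃ f g : ℝ → ℝ,
    (∀ x, f (-x) = f x) ∧ (∀ x, f (x + 2 * Real.pi) = f x) ∧
    (∀ x y, |f x - f y| ≤ (1 / Real.pi) * |x - y|) ∧
    (∀ x, g (-x) = g x) ∧ (∀ x, g (x + 2 * Real.pi) = g x) ∧
    (∀ x y, |g x - g y| ≤ (1 / Real.pi) * |x - y|) ∧
    (fun θ : ℝ => ((f θ, g θ) : ℝ × ℝ)) '' Icc 0 Real.pi
      = (fun t : ℝ => ((φ t 0, φ t 1) : ℝ × ℝ)) '' Icc 0 1

/-- curves of Euclidean length at most one, as subsets of the plane with the max metric -/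
def Gamma1 : Set (Set (ℝ × ℝ)) :=
  {A | ∃ φ : ℝ → EuclideanSpace ℝ (Fin 2),
    ContinuousOn φ (Icc 0 1) ∧ eVariationOn φ (Icc 0 1) ≤ 1 ∧
    A = (fun t : ℝ => ((φ t 0, φ t 1) : ℝ × ℝ)) '' Icc 0 1}

/-- algebraic polynomial curves of degree at most n -/
def HCurves (n : ℕ) : Set (Set (ℝ × ℝ)) :=
  {A | ∃ P Q : Polynomial ℝ, P.degree ≤ (n : WithBot ℕ) ∧ Q.degree ≤ (n : WithBot ℕ) ∧
    A = (fun t : ℝ => ((P.eval t, Q.eval t) : ℝ × ℝ)) '' Icc 0 1}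

/-- the real trigonometric polynomial of degree at most n with coefficients a, b -/
noncomputable def trigPoly (n : ℕ) (a b : ℕ → ℝ) (t : ℝ) : ℝ :=
  ∑ k ∈ Finset.range (n + 1), (a k * Real.cos ((k:ℝ) * t) + b k * Real.sin ((k:ℝ) * t))

/-- trigonometric polynomial curves of degree at most n -/
def TCurves (n : ℕ) : Set (Set (ℝ × ℝ)) :=
  {A | ∃ a b c d : ℕ → ℝ,
    A = (fun t : ℝ => ((trigPoly n a b t, trigPoly n c d t) : ℝ × ℝ)) '' Icc 0 (2 * Real.pi)}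

/-- worst case best approximation error in the Hausdorff metric of the plane with max norm -/
noncomputable def E (W Γ : Set (Set (ℝ × ℝ))) : ENNReal :=
  ⨆ A ∈ Γ, ⨅ B ∈ W, Metric.hausdorffEDist A B

noncomputable def c3 : ENNReal :=
  Filter.limsup (fun n : ℕ => (n : ENNReal) * E (HCurves n) Gamma1) Filter.atTop

noncomputable def c4 : ENNReal :=
  Filter.limsup (fun n : ℕ => (n : ENNReal) * E (TCurves n) Gamma1) Filter.atTop

/-- the bound -/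
def StMain : Prop :=
  (∀ n : ℕ, E (HCurves n) Gamma1 ≤ ENNReal.ofReal (1 / (2 * ((n:ℝ) + 1)))) ∧
  (∀ n : ℕ, E (TCurves n) Gamma1 ≤ ENNReal.ofReal (1 / (2 * ((n:ℝ) + 1)))) ∧
  c3 ≤ ENNReal.ofReal (1 / 2) ∧ c4 ≤ ENNReal.ofReal (1 / 2)

end Pool.Agent.K7.H48.PC
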