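import Mathlib
import Pool.Agent.K7.H48.PC.Stm

set_option autoImplicit false

/-! PC job CONV: approximation of an even periodic Lipschitz function by cosine polynomials. -/

namespace Pool.Agent.K7.H48.PC

open Set Finset

/-- the kernel -/
noncomputable def Ker (N : ℕ) (B : ℕ → ℝ) (t : ℝ) : ℝ :=
  (Real.pi - t) / 2 - ∑ k ∈ Finset.range N, B k * Real.sin ((k : ℝ) * t)

theorem ker_hasDeriv (N : ℕ) (B : ℕ → ℝ) (t : ℝ) :
    HasDerivAt (Ker N B) (-(1 / 2) - ∑ k ∈ Finset.range N, B k * (k * Real.cos ((k : ℝ) * t))) t := by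
  have h1 : HasDerivAt (fun t : ℝ => (Real.pi - t) / 2) (-(1 / 2)) t := by
    exact (((hasDerivAt_id' t).const_sub Real.pi).div_const 2).congr_deriv (by norm_num)
  have h2 : HasDerivAt (fun t : ℝ => ∑ k ∈ Finset.range N, B k * Real.sin ((k : ℝ) * t))
      (∑ k ∈ Finset.range N, B k * (k * Real.cos ((k : ℝ) * t))) t := by
    apply HasDerivAt.fun_sum
    intro k _
    have h3 : HasDerivAt (fun t : ℝ => (k : ℝ) * t) (k : ℝ) t := by
      simpa using (hasDerivAt_id t).const_mul (k : ℝ)
    have h4 := (Real.hasDerivAt_sin ((k : ℝ) * t)).comp t h3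
    have h5 := h4.const_mul (B k)
    exact h5.congr_deriv (by ring)
  exact h1.sub h2

theorem ker_cont (N : ℕ) (B : ℕ → ℝ) : Continuous (Ker N B) :=
  continuous_iff_continuousAt.mpr fun t => (ker_hasDeriv N B t).continuousAt

theorem ker_refl (N : ℕ) (B : ℕ → ℝ) (t : ℝ) : Ker N B (2 * Real.pi - t) = -Ker N B t := by
  unfold Ker
  have h1 : ∀ k : ℕ, Real.sin ((k : ℝ) * (2 * Real.pi - t)) = -Real.sin ((k : ℝ) * t) := by
    intro k
    have e : (k : ℝ) * (2 * Real.pi - t) = (k : ℝ) * (2 * Real.pi) - k * t := by ring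
    rw [e, Real.sin_nat_mul_two_pi_sub]
  simp_rw [h1, mul_neg, Finset.sum_neg_distrib]
  ring

theorem ker_abs (N : ℕ) (B : ℕ → ℝ) :
    ∫ t in (0 : ℝ)..2 * Real.pi, |Ker N B t| = 2 * ∫ t in (0 : ℝ)..Real.pi, |Ker N B t| := by
  have hc : Continuous fun t => |Ker N B t| := (ker_cont N B).abs
  have h1 : ∫ t in (0 : ℝ)..Real.pi, |Ker N B (2 * Real.pi - t)| =
      ∫ t in (2 * Real.pi - Real.pi)..(2 * Real.pi - 0), |Ker N B t| :=
    intervalIntegral.integral_comp_sub_left (fun t => |Ker N B t|) (2 * Real.pi)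
  have e1 : 2 * Real.pi - Real.pi = Real.pi := by ring
  rw [e1, sub_zero] at h1
  have h2 : ∫ t in (0 : ℝ)..Real.pi, |Ker N B (2 * Real.pi - t)| =
      ∫ t in (0 : ℝ)..Real.pi, |Ker N B t| := by
    congr 1
    funext t
    rw [ker_refl, abs_neg]
  rw [← intervalIntegral.integral_add_adjacent_intervals (hc.intervalIntegrable 0 Real.pi)
    (hc.intervalIntegrable Real.pi (2 * Real.pi)), ← h1, h2]
  ring

/-- the Fourier coefficients -/
theorem fourier (f : ℝ → ℝ) (hc : Continuous f) (he : ∀ x, f (-x) = f x)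
    (hp : ∀ x, f (x + 2 * Real.pi) = f x) (k : ℕ) (x : ℝ) :
    ∫ t in (0 : ℝ)..2 * Real.pi, Real.cos ((k : ℝ) * t) * f (x - t) =
      Real.cos ((k : ℝ) * x) * ∫ s in (0 : ℝ)..2 * Real.pi, Real.cos ((k : ℝ) * s) * f s := by
  let h : ℝ → ℝ := fun s => Real.cos ((k : ℝ) * (x - s)) * f s
  have h0 : ∫ t in (0 : ℝ)..2 * Real.pi, Real.cos ((k : ℝ) * t) * f (x - t) =
      ∫ t in (0 : ℝ)..2 * Real.pi, h (x - t) := by
    congr 1
    funext t
    show _ = Real.cos ((k : ℝ) * (x - (x - t))) * f (x - t)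
    rw [sub_sub_cancel]
  have hper : Function.Periodic h (2 * Real.pi) := by
    intro s
    show Real.cos ((k : ℝ) * (x - (s + 2 * Real.pi))) * f (s + 2 * Real.pi) = _
    rw [hp]
    have e : (k : ℝ) * (x - (s + 2 * Real.pi)) = (k : ℝ) * (x - s) - k * (2 * Real.pi) := by ring
    rw [e, Real.cos_sub_nat_mul_two_pi]
  have h1 : ∫ t in (0 : ℝ)..2 * Real.pi, h (x - t) = ∫ s in (0 : ℝ)..2 * Real.pi, h s := by
    rw [intervalIntegral.integral_comp_sub_left h x, sub_zero]
    have := hper.intervalIntegral_add_eq (x - 2 * Real.pi) 0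
    rwa [sub_add_cancel, zero_add] at this
  have hsin : ∫ s in (0 : ℝ)..2 * Real.pi, Real.sin ((k : ℝ) * s) * f s = 0 := by
    have h2 : ∫ s in (0 : ℝ)..2 * Real.pi, Real.sin ((k : ℝ) * (2 * Real.pi - s)) *
        f (2 * Real.pi - s) = ∫ s in (2 * Real.pi - 2 * Real.pi)..(2 * Real.pi - 0),
          Real.sin ((k : ℝ) * s) * f s :=
      intervalIntegral.integral_comp_sub_left (fun s => Real.sin ((k : ℝ) * s) * f s) (2 * Real.pi)
    rw [sub_self, sub_zero] at h2
    have h3 : ∀ s : ℝ, Real.sin ((k : ℝ) * (2 * Real.pi - s)) * f (2 * Real.pi - s) =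
        -(Real.sin ((k : ℝ) * s) * f s) := by
      intro s
      have e : (k : ℝ) * (2 * Real.pi - s) = (k : ℝ) * (2 * Real.pi) - k * s := by ring
      have e2 : f (2 * Real.pi - s) = f s := by
        have := hp (-s)
        rw [he] at this
        rw [← this]
        congr 1
        ring
      rw [e, Real.sin_nat_mul_two_pi_sub, e2]
      ring
    simp_rw [h3] at h2
    rw [intervalIntegral.integral_neg] at h2
    linarith
  rw [h0, h1]
  have h4 : ∀ s, h s = Real.cos ((k : ℝ) * x) * (Real.cos ((k : ℝ) * s) * f s) +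
      Real.sin ((k : ℝ) * x) * (Real.sin ((k : ℝ) * s) * f s) := by
    intro s
    show Real.cos ((k : ℝ) * (x - s)) * f s = _
    rw [mul_sub, Real.cos_sub]
    ring
  simp_rw [h4]
  have c1 : Continuous fun s => Real.cos ((k : ℝ) * x) * (Real.cos ((k : ℝ) * s) * f s) := by
    fun_prop
  have c2 : Continuous fun s => Real.sin ((k : ℝ) * x) * (Real.sin ((k : ℝ) * s) * f s) := by
    fun_prop
  rw [intervalIntegral.integral_add (c1.intervalIntegrable _ _) (c2.intervalIntegrable _ _),
    intervalIntegral.integral_const_mul, intervalIntegral.integral_const_mul, hsin]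
  ring

/-- JOB CONV -/
theorem stConv (hF : StFav) : StConv := by
  intro N hN M f he hp hL
  obtain ⟨B, hB⟩ := hF N hN
  have hcf : Continuous f := hL.continuous
  have hpi := Real.pi_pos
  let I : ℕ → ℝ := fun k => ∫ s in (0 : ℝ)..2 * Real.pi, Real.cos ((k : ℝ) * s) * f s
  refine ⟨fun k => 1 / Real.pi * ((if k = 0 then 1 / 2 * I 0 else 0) + B k * (k * I k)),
    fun x => ?_⟩
  let g : ℝ → ℝ := fun t => f (x - t)
  have hLg : LipschitzWith M g := by
    have := hL.comp (LipschitzWith.of_le_add (f := fun t : ℝ => x - t) (by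
      intro a b
      rw [Real.dist_eq]
      have := neg_abs_le (a - b)
      have e : |a - b| = |b - a| := abs_sub_comm a b
      linarith [le_abs_self (b - a)]))
    rw [mul_one] at this
    exact this
  have hcg : Continuous g := hLg.continuous
  have hK : AbsolutelyContinuousOnInterval (Ker N B) 0 (2 * Real.pi) := by
    apply ContDiffOn.absolutelyContinuousOnInterval
    apply ContDiff.contDiffOn
    unfold Ker
    fun_prop
  have hg : AbsolutelyContinuousOnInterval g 0 (2 * Real.pi) :=
    (hLg.lipschitzOnWith).absolutelyContinuousOnInterval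
  have hparts := hK.integral_mul_deriv_eq_deriv_mul hg
  have hK1 : Ker N B (2 * Real.pi) = -(Real.pi / 2) := by
    unfold Ker
    have h1 : ∀ k : ℕ, Real.sin ((k : ℝ) * (2 * Real.pi)) = 0 := by
      intro k
      have := Real.sin_nat_mul_pi (2 * k)
      push_cast at this
      rw [← this]
      congr 1
      ring
    simp_rw [h1, mul_zero, Finset.sum_const_zero]
    ring
  have hK0 : Ker N B 0 = Real.pi / 2 := by
    unfold Ker
    simp
  have hg1 : g (2 * Real.pi) = f x := by
    show f (x - 2 * Real.pi) = f x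
    rw [← hp (x - 2 * Real.pi), sub_add_cancel]
  have hg0 : g 0 = f x := by
    show f (x - 0) = f x
    rw [sub_zero]
  rw [hK1, hK0, hg1, hg0] at hparts
  -- the integral of the product with the derivative of the kernel
  have hD : ∫ t in (0 : ℝ)..2 * Real.pi, deriv (Ker N B) t * g t =
      -(1 / 2 * I 0) - ∑ k ∈ Finset.range N, B k * (k * (Real.cos ((k : ℝ) * x) * I k)) := by
    have h1 : ∀ t, deriv (Ker N B) t * g t = -(1 / 2) * (Real.cos (((0 : ℕ) : ℝ) * t) * f (x - t)) -
        ∑ k ∈ Finset.range N, B k * (k * (Real.cos ((k : ℝ) * t) * f (x - t))) := by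
      intro t
      rw [(ker_hasDeriv N B t).deriv]
      show (-(1 / 2) - ∑ k ∈ Finset.range N, B k * (k * Real.cos ((k : ℝ) * t))) * f (x - t) = _
      rw [sub_mul, Finset.sum_mul]
      congr 1
      · simp
      · refine Finset.sum_congr rfl fun k _ => ?_
        ring
    simp_rw [h1]
    have cc : ∀ k : ℕ, Continuous fun t => Real.cos ((k : ℝ) * t) * f (x - t) := by
      intro k
      fun_prop
    rw [intervalIntegral.integral_sub (((cc 0).const_mul _).intervalIntegrable _ _)
      ((continuous_finsetSum _ fun k _ => ((cc k).const_mul _).const_mul _).intervalIntegrable _ _),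
      intervalIntegral.integral_const_mul, fourier f hcf he hp 0 x,
      intervalIntegral.integral_finsetSum
        (fun k _ => (((cc k).const_mul _).const_mul _).intervalIntegrable _ _)]
    congr 1
    · simp only [Nat.cast_zero, zero_mul, Real.cos_zero, one_mul]
      show _ = -(1 / 2 * ∫ s in (0 : ℝ)..2 * Real.pi, Real.cos (((0 : ℕ) : ℝ) * s) * f s)
      simp only [Nat.cast_zero, zero_mul, Real.cos_zero, one_mul]
      ring
    · refine Finset.sum_congr rfl fun k _ => ?_
      rw [intervalIntegral.integral_const_mul, intervalIntegral.integral_const_mul,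
        fourier f hcf he hp k x]
  rw [hD] at hparts
  -- the error
  have hT : ∑ k ∈ Finset.range N,
      1 / Real.pi * ((if k = 0 then 1 / 2 * I 0 else 0) + B k * (k * I k)) * Real.cos ((k : ℝ) * x) =
      1 / Real.pi * (1 / 2 * I 0 +
        ∑ k ∈ Finset.range N, B k * (k * (Real.cos ((k : ℝ) * x) * I k))) := by
    rw [mul_add, Finset.mul_sum]
    have h1 : ∀ k ∈ Finset.range N,
        1 / Real.pi * ((if k = 0 then 1 / 2 * I 0 else 0) + B k * (k * I k)) *
          Real.cos ((k : ℝ) * x) =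
        (if k = 0 then 1 / Real.pi * (1 / 2 * I 0) else 0) +
          1 / Real.pi * (B k * (k * (Real.cos ((k : ℝ) * x) * I k))) := by
      intro k _
      split_ifs with hk
      · subst hk
        simp
      · ring
    rw [Finset.sum_congr rfl h1, Finset.sum_add_distrib, Finset.sum_ite_eq' (Finset.range N) 0,
      if_pos (Finset.mem_range.mpr (by omega))]
  rw [hT]
  have herr : f x - 1 / Real.pi * (1 / 2 * I 0 +
      ∑ k ∈ Finset.range N, B k * (k * (Real.cos ((k : ℝ) * x) * I k))) =
      -(1 / Real.pi * ∫ t in (0 : ℝ)..2 * Real.pi, Ker N B t * deriv g t) := by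
    rw [hparts]
    generalize ∑ k ∈ Finset.range N, B k * (k * (Real.cos ((k : ℝ) * x) * I k)) = Sg
    field_simp
    ring
  rw [herr, abs_neg, abs_mul, abs_of_pos (show 0 < 1 / Real.pi by positivity)]
  have hbound : |∫ t in (0 : ℝ)..2 * Real.pi, Ker N B t * deriv g t| ≤
      ∫ t in (0 : ℝ)..2 * Real.pi, |Ker N B t| * M := by
    rw [← Real.norm_eq_abs]
    apply intervalIntegral.norm_integral_le_of_norm_le (by positivity)
    · refine Filter.Eventually.of_forall fun t _ => ?_
      rw [norm_mul, Real.norm_eq_abs]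
      exact mul_le_mul_of_nonneg_left (norm_deriv_le_of_lipschitz hLg) (abs_nonneg _)
    · exact ((ker_cont N B).abs.mul_const _).intervalIntegrable _ _
  rw [intervalIntegral.integral_mul_const, ker_abs] at hbound
  have hB' : ∫ t in (0 : ℝ)..Real.pi, |Ker N B t| ≤ Real.pi ^ 2 / (4 * (N : ℝ)) := hB
  have hN' : (0 : ℝ) < N := by exact_mod_cast hN
  calc 1 / Real.pi * |∫ t in (0 : ℝ)..2 * Real.pi, Ker N B t * deriv g t|
      ≤ 1 / Real.pi * (2 * (∫ t in (0 : ℝ)..Real.pi, |Ker N B t|) * M) := by gcongr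
    _ ≤ 1 / Real.pi * (2 * (Real.pi ^ 2 / (4 * (N : ℝ))) * M) := by gcongr
    _ = (M : ℝ) * Real.pi / (2 * (N : ℝ)) := by
        field_simp
        ring

end Pool.Agent.K7.H48.PC
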