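import Mathlib

/-!
Job DIST of project PC (helper60): the function `arccos (cos x)` is 1-Lipschitz.
-/

set_option autoImplicit false

namespace Pool.Agent.K7.H48.PC

theorem arccosCosLip : ∀ x y : ℝ,
    |Real.arccos (Real.cos x) - Real.arccos (Real.cos y)| ≤ |x - y| := by
  intro x y
  obtain ⟨u, hu⟩ : ∃ u, u = Real.arccos (Real.cos x) := ⟨_, rfl⟩
  obtain ⟨v, hv⟩ : ∃ v, v = Real.arccos (Real.cos y) := ⟨_, rfl⟩
  have hu0 : 0 ≤ u := by rw [hu]; exact Real.arccos_nonneg _
  have hv0 : 0 ≤ v := by rw [hv]; exact Real.arccos_nonneg _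
  have hu1 : u ≤ Real.pi := by rw [hu]; exact Real.arccos_le_pi _
  have hv1 : v ≤ Real.pi := by rw [hv]; exact Real.arccos_le_pi _
  have hcu : Real.cos u = Real.cos x := by
    rw [hu, Real.cos_arccos (Real.neg_one_le_cos _) (Real.cos_le_one _)]
  have hcv : Real.cos v = Real.cos y := by
    rw [hv, Real.cos_arccos (Real.neg_one_le_cos _) (Real.cos_le_one _)]
  rw [← hu, ← hv]
  obtain ⟨m, hm⟩ := Real.cos_eq_cos_iff.mp hcu
  obtain ⟨k, hk⟩ := Real.cos_eq_cos_iff.mp hcv
  obtain ⟨d, hd⟩ : ∃ d : ℤ, d = m - k := ⟨_, rfl⟩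
  have hdR : (m : ℝ) * Real.pi - k * Real.pi = d * Real.pi := by
    rw [hd]; push_cast; ring
  have hpi := Real.pi_pos
  have h1 := le_abs_self (x - y)
  have h2 := neg_le_abs (x - y)
  have hcase : (d : ℝ) * Real.pi = 0 ∨ Real.pi ≤ (d : ℝ) * Real.pi ∨
      (d : ℝ) * Real.pi ≤ - Real.pi := by
    rcases lt_trichotomy d 0 with h | h | h
    · right; right
      have : (d : ℝ) ≤ -1 := by exact_mod_cast (by omega : d ≤ -1)
      nlinarith
    · left
      rw [h]; simp
    · right; left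
      have : (1 : ℝ) ≤ d := by exact_mod_cast (by omega : 1 ≤ d)
      nlinarith
  rw [abs_le]
  rcases hm with hm | hm <;> rcases hk with hk | hk <;> rcases hcase with hc | hc | hc <;>
    constructor <;> linarith

end Pool.Agent.K7.H48.PC
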