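import Pool.Agent.K7.H48.PC.Stm

namespace Pool.Agent.K7.H48.PC

open Set MeasureTheory

noncomputable def GG (x : ℝ) : ℕ → ℝ
  | 0 => 0
  | (m+1) => 1 + x^2 * GG x m

lemma GG_nonneg (x : ℝ) : ∀ m, 0 ≤ GG x m
  | 0 => le_refl _
  | (m+1) => by
      have h := GG_nonneg x m
      show 0 ≤ 1 + x^2 * GG x m
      positivity

lemma GG_pos (x : ℝ) (m : ℕ) (hm : 1 ≤ m) : 0 < GG x m := by
  obtain ⟨j, rfl⟩ := Nat.exists_eq_succ_of_ne_zero (by omega : m ≠ 0)
  have h := GG_nonneg x j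
  show 0 < 1 + x^2 * GG x j
  positivity

lemma GG_cont (m : ℕ) : Continuous (fun x => GG x m) := by
  induction m with
  | zero => exact continuous_const
  | succ m ih =>
    show Continuous (fun x => 1 + x^2 * GG x m)
    fun_prop

lemma key_id (x t : ℝ) (N m : ℕ) (hm : m < N) :
    GG x N * Real.sin t - ∑ k ∈ Finset.range (m+1),
        x^(k-1) * GG x (N-k) * (1 - 2*x*Real.cos t + x^2) * Real.sin ((k:ℝ)*t)
      = x^m * GG x (N-m) * Real.sin (((m:ℝ)+1)*t)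
        - x^(m+1) * GG x (N-m-1) * Real.sin ((m:ℝ)*t) := by
  induction m with
  | zero => simp
  | succ m ih =>
    obtain ⟨j, rfl⟩ := Nat.exists_eq_add_of_lt hm
    have ih' := ih (by omega)
    rw [Finset.sum_range_succ, ← sub_sub, ih']
    have e1 : m + 1 + j + 1 - m = j + 2 := by omega
    have e2 : m + 1 + j + 1 - m - 1 = j + 1 := by omega
    have e3 : m + 1 + j + 1 - (m+1) = j + 1 := by omega
    have e4 : m + 1 + j + 1 - (m+1) - 1 = j := by omega
    rw [e2, e1, e4, e3]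
    have g2 : GG x (j+2) = 1 + x^2 * GG x (j+1) := rfl
    have g1 : GG x (j+1) = 1 + x^2 * GG x j := rfl
    have s1 : Real.sin (((m:ℝ)+1)*t) = Real.sin ((m:ℝ)*t) * Real.cos t + Real.cos ((m:ℝ)*t) * Real.sin t := by
      rw [← Real.sin_add]; ring_nf
    have s2 : Real.sin ((((m+1:ℕ):ℝ)+1)*t) = 2 * Real.cos t * Real.sin (((m:ℝ)+1)*t) - Real.sin ((m:ℝ)*t) := by
      have a1 : ((((m+1:ℕ):ℝ)+1)*t) = ((m:ℝ)+1)*t + t := by push_cast; ring
      have a2 : (m:ℝ)*t = ((m:ℝ)+1)*t - t := by ring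
      rw [a1, a2, Real.sin_add, Real.sin_sub]
      ring
    have c1 : (((m+1:ℕ):ℝ)*t) = ((m:ℝ)+1)*t := by push_cast; ring
    rw [c1, s2, g2]
    have c2 : m + 1 - 1 = m := rfl
    rw [c2, g1]
    ring

lemma key_id' (x t : ℝ) (N : ℕ) (hN : 1 ≤ N) :
    GG x N * Real.sin t - ∑ k ∈ Finset.range N,
        x^(k-1) * GG x (N-k) * (1 - 2*x*Real.cos t + x^2) * Real.sin ((k:ℝ)*t)
      = x^(N-1) * Real.sin ((N:ℝ)*t) := by
  obtain ⟨m, rfl⟩ := Nat.exists_eq_succ_of_ne_zero (by omega : N ≠ 0)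
  have h := key_id x t (m+1) m (by omega)
  rw [Nat.succ_eq_add_one, h]
  have e1 : m + 1 - m = 1 := by omega
  have e2 : m + 1 - m - 1 = 0 := by omega
  rw [e2, e1]
  have g0 : GG x 0 = 0 := rfl
  have g1 : GG x 1 = 1 + x^2 * GG x 0 := rfl
  rw [g1, g0]
  have c1 : (((m+1:ℕ):ℝ)*t) = ((m:ℝ)+1)*t := by push_cast; ring
  rw [c1]
  simp

lemma D_pos (x t : ℝ) (ht : t ∈ Ioo 0 Real.pi) : 0 < 1 - 2*x*Real.cos t + x^2 := by
  have hs := Real.sin_pos_of_mem_Ioo ht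
  have h2 := Real.sin_sq_add_cos_sq t
  nlinarith [sq_nonneg (x - Real.cos t), mul_pos hs hs]

lemma key_div (x t : ℝ) (ht : t ∈ Ioo 0 Real.pi) (N : ℕ) (hN : 1 ≤ N) :
    Real.sin t / (1 - 2*x*Real.cos t + x^2) - ∑ k ∈ Finset.range N,
        (x^(k-1) * GG x (N-k) / GG x N) * Real.sin ((k:ℝ)*t)
      = Real.sin ((N:ℝ)*t) * (x^(N-1) / (GG x N * (1 - 2*x*Real.cos t + x^2))) := by
  have hD := D_pos x t ht
  have hG := GG_pos x N hN
  have h := key_id' x t N hN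
  have e : ∑ k ∈ Finset.range N, (x^(k-1) * GG x (N-k) / GG x N) * Real.sin ((k:ℝ)*t)
      = (∑ k ∈ Finset.range N,
        x^(k-1) * GG x (N-k) * (1 - 2*x*Real.cos t + x^2) * Real.sin ((k:ℝ)*t)) /
          (GG x N * (1 - 2*x*Real.cos t + x^2)) := by
    rw [Finset.sum_div]
    refine Finset.sum_congr rfl (fun k _ => ?_)
    field_simp
  rw [e]
  have e2 : Real.sin t / (1 - 2*x*Real.cos t + x^2)
      = (GG x N * Real.sin t) / (GG x N * (1 - 2*x*Real.cos t + x^2)) := by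
    field_simp
  rw [e2, ← sub_div, h]
  ring

lemma int_h (t : ℝ) (ht : t ∈ Ioo 0 Real.pi) :
    ∫ x in (0:ℝ)..1, Real.sin t / (1 - 2*x*Real.cos t + x^2) = (Real.pi - t)/2 := by
  have hs := Real.sin_pos_of_mem_Ioo ht
  have hder : ∀ x ∈ uIcc (0:ℝ) 1, HasDerivAt (fun x => Real.arctan ((x - Real.cos t)/Real.sin t))
      (Real.sin t / (1 - 2*x*Real.cos t + x^2)) x := by
    intro x _
    have h1 : HasDerivAt (fun x => (x - Real.cos t)/Real.sin t) (1/Real.sin t) x :=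
      ((hasDerivAt_id x).sub_const _).div_const _
    have h2 := h1.arctan
    convert h2 using 1
    have hD := D_pos x t ht
    have h3 : (1:ℝ) + ((x - Real.cos t)/Real.sin t)^2 = (1 - 2*x*Real.cos t + x^2)/(Real.sin t)^2 := by
      field_simp
      nlinarith [Real.sin_sq_add_cos_sq t]
    rw [h3]
    field_simp
  have hcont : ContinuousOn (fun x : ℝ => Real.sin t / (1 - 2*x*Real.cos t + x^2)) (uIcc 0 1) := by
    apply ContinuousOn.div
    · fun_prop
    · fun_prop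
    · intro x _
      exact (D_pos x t ht).ne'
  rw [intervalIntegral.integral_eq_sub_of_hasDerivAt hder hcont.intervalIntegrable]
  have hc2 : Real.cos (t/2) > 0 := Real.cos_pos_of_mem_Ioo ⟨by linarith [ht.1, Real.pi_pos], by linarith [ht.2]⟩
  have hs2 : Real.sin (t/2) > 0 := Real.sin_pos_of_mem_Ioo ⟨by linarith [ht.1], by linarith [ht.2, Real.pi_pos]⟩
  have et : t = 2 * (t/2) := by ring
  have e1 : (1 - Real.cos t)/Real.sin t = Real.tan (t/2) := by
    rw [Real.tan_eq_sin_div_cos]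
    have a1 : Real.cos t = 1 - 2 * Real.sin (t/2)^2 := by
      have := Real.cos_two_mul (t/2)
      rw [← et] at this
      nlinarith [Real.sin_sq_add_cos_sq (t/2)]
    have a2 : Real.sin t = 2 * Real.sin (t/2) * Real.cos (t/2) := by
      have := Real.sin_two_mul (t/2)
      rw [← et] at this
      exact this
    rw [a1, a2]
    field_simp
    ring
  have e2 : (0 - Real.cos t)/Real.sin t = - Real.tan (Real.pi/2 - t) := by
    rw [Real.tan_eq_sin_div_cos, Real.sin_pi_div_two_sub, Real.cos_pi_div_two_sub]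
    ring
  show Real.arctan ((1 - Real.cos t)/Real.sin t) - Real.arctan ((0 - Real.cos t)/Real.sin t) = _
  rw [e1, e2, Real.arctan_neg, Real.arctan_tan (by linarith [ht.1, Real.pi_pos]) (by linarith [ht.2]),
    Real.arctan_tan (by linarith [ht.2]) (by linarith [ht.1])]
  ring

noncomputable def BB (N k : ℕ) : ℝ := ∫ x in (0:ℝ)..1, x^(k-1) * GG x (N-k) / GG x N

noncomputable def EE (N : ℕ) (t : ℝ) : ℝ :=
  (Real.pi - t)/2 - ∑ k ∈ Finset.range N, BB N k * Real.sin ((k:ℝ)*t)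

lemma b_cont (N k : ℕ) (hN : 1 ≤ N) : Continuous (fun x : ℝ => x^(k-1) * GG x (N-k) / GG x N) := by
  apply Continuous.div
  · exact (continuous_pow _).mul (GG_cont _)
  · exact GG_cont _
  · intro x; exact (GG_pos x N hN).ne'

lemma EE_eq (N : ℕ) (hN : 1 ≤ N) (t : ℝ) (ht : t ∈ Ioo 0 Real.pi) :
    ∃ w : ℝ, 0 ≤ w ∧ EE N t = Real.sin ((N:ℝ)*t) * w := by
  refine ⟨∫ x in (0:ℝ)..1, x^(N-1) / (GG x N * (1 - 2*x*Real.cos t + x^2)), ?_, ?_⟩
  · apply intervalIntegral.integral_nonneg (by norm_num)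
    intro x hx
    have := D_pos x t ht
    have := GG_pos x N hN
    have := hx.1
    positivity
  · rw [← intervalIntegral.integral_const_mul]
    have h1 : ∀ x : ℝ, Real.sin ((N:ℝ)*t) * (x^(N-1) / (GG x N * (1 - 2*x*Real.cos t + x^2)))
        = Real.sin t / (1 - 2*x*Real.cos t + x^2) - ∑ k ∈ Finset.range N,
        (x^(k-1) * GG x (N-k) / GG x N) * Real.sin ((k:ℝ)*t) :=
      fun x => (key_div x t ht N hN).symm
    simp_rw [h1]
    have hcont : Continuous (fun x : ℝ => Real.sin t / (1 - 2*x*Real.cos t + x^2)) := by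
      apply Continuous.div
      · fun_prop
      · fun_prop
      · intro x
        exact (D_pos x t ht).ne'
    rw [intervalIntegral.integral_sub (hcont.intervalIntegrable _ _)]
    · rw [int_h t ht, intervalIntegral.integral_finsetSum]
      · unfold EE BB
        congr 1
        refine Finset.sum_congr rfl (fun k _ => ?_)
        rw [intervalIntegral.integral_mul_const]
      · intro k _
        exact ((b_cont N k hN).mul continuous_const).intervalIntegrable _ _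
    · apply Continuous.intervalIntegrable
      apply continuous_finsetSum
      intro k _
      exact (b_cont N k hN).mul continuous_const

lemma EE_cont (N : ℕ) : Continuous (EE N) := by
  unfold EE
  fun_prop

lemma abs_eq_on (N j : ℕ) (hN : 1 ≤ N) (hj : j < N) :
    ∀ t ∈ Ioo ((j:ℝ) * (Real.pi/N)) (((j+1:ℕ):ℝ) * (Real.pi/N)), |EE N t| = (-1)^j * EE N t := by
  intro t ht
  have hNp : (0:ℝ) < N := by exact_mod_cast hN
  have hh : 0 < Real.pi / N := div_pos Real.pi_pos hNp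
  have hmul : (N:ℝ) * (Real.pi/N) = Real.pi := by field_simp
  have h1 : (j:ℝ) * Real.pi < (N:ℝ) * t := by
    have := mul_lt_mul_of_pos_left ht.1 hNp
    calc (j:ℝ) * Real.pi = (N:ℝ) * ((j:ℝ) * (Real.pi/N)) := by rw [← hmul]; ring_nf; field_simp
      _ < _ := this
  have h2 : (N:ℝ) * t < ((j+1:ℕ):ℝ) * Real.pi := by
    have := mul_lt_mul_of_pos_left ht.2 hNp
    calc (N:ℝ) * t < (N:ℝ) * (((j+1:ℕ):ℝ) * (Real.pi/N)) := this
      _ = ((j+1:ℕ):ℝ) * Real.pi := by field_simp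
  have ht0 : t ∈ Ioo 0 Real.pi := by
    constructor
    · exact lt_of_le_of_lt (by positivity) ht.1
    · refine lt_of_lt_of_le ht.2 ?_
      have : ((j+1:ℕ):ℝ) ≤ (N:ℝ) := by exact_mod_cast hj
      calc ((j+1:ℕ):ℝ) * (Real.pi/N) ≤ (N:ℝ) * (Real.pi/N) := mul_le_mul_of_nonneg_right this hh.le
        _ = Real.pi := hmul
  obtain ⟨w, hw, hE⟩ := EE_eq N hN t ht0
  have hs : 0 < Real.sin ((N:ℝ)*t - (j:ℝ) * Real.pi) := by
    apply Real.sin_pos_of_mem_Ioo
    constructor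
    · linarith
    · push_cast at h2
      linarith
  rw [Real.sin_sub_nat_mul_pi] at hs
  have h0 : 0 ≤ (-1)^j * EE N t := by
    rw [hE, ← mul_assoc]
    exact mul_nonneg hs.le hw
  rw [← abs_of_nonneg h0, abs_mul]
  simp

lemma int_abs_piece (N j : ℕ) (hN : 1 ≤ N) (hj : j < N) :
    ∫ t in ((j:ℝ) * (Real.pi/N))..(((j+1:ℕ):ℝ) * (Real.pi/N)), |EE N t|
      = (-1)^j * ∫ t in ((j:ℝ) * (Real.pi/N))..(((j+1:ℕ):ℝ) * (Real.pi/N)), EE N t := by
  rw [← intervalIntegral.integral_const_mul]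
  have hNp : (0:ℝ) < N := by exact_mod_cast hN
  have hh : 0 < Real.pi / N := div_pos Real.pi_pos hNp
  have hlt : (j:ℝ) * (Real.pi/N) < ((j+1:ℕ):ℝ) * (Real.pi/N) := by
    apply mul_lt_mul_of_pos_right _ hh
    push_cast; linarith
  have hcl := Set.EqOn.closure (f := fun t => |EE N t|) (g := fun t => (-1)^j * EE N t)
    (abs_eq_on N j hN hj) (EE_cont N).abs (continuous_const.mul (EE_cont N))
  rw [closure_Ioo hlt.ne] at hcl
  apply intervalIntegral.integral_congr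
  rw [uIcc_of_le hlt.le]
  exact hcl

noncomputable def FF (N : ℕ) (t : ℝ) : ℝ :=
  (Real.pi * t/2 - t^2/4) + ∑ k ∈ Finset.range N, BB N k * (Real.cos ((k:ℝ)*t) / k)

lemma FF_deriv (N : ℕ) (t : ℝ) : HasDerivAt (FF N) (EE N t) t := by
  unfold FF EE
  have h1 : HasDerivAt (fun t : ℝ => Real.pi * t/2 - t^2/4) ((Real.pi - t)/2) t := by
    have a : HasDerivAt (fun t : ℝ => Real.pi * t / 2) (Real.pi * 1 / 2) t :=
      ((hasDerivAt_id t).const_mul Real.pi).div_const 2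
    have b : HasDerivAt (fun t : ℝ => t^2/4) (((2:ℕ):ℝ) * t^(2-1) / 4) t :=
      (hasDerivAt_pow 2 t).div_const 4
    have c := a.fun_sub b
    have e : (Real.pi - t)/2 = Real.pi * 1 / 2 - ((2:ℕ):ℝ) * t^(2-1) / 4 := by
      norm_num
      ring
    rw [e]
    exact c
  have h2 : HasDerivAt (fun t : ℝ => ∑ k ∈ Finset.range N, BB N k * (Real.cos ((k:ℝ)*t) / k))
      (∑ k ∈ Finset.range N, -(BB N k * Real.sin ((k:ℝ)*t))) t := by
    apply HasDerivAt.fun_sum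
    intro k _
    have a : HasDerivAt (fun t : ℝ => (k:ℝ)*t) ((k:ℝ)*1) t := (hasDerivAt_id t).const_mul _
    have b := (a.cos.div_const (k:ℝ)).const_mul (BB N k)
    have e : -(BB N k * Real.sin ((k:ℝ) * t)) = BB N k * (-Real.sin ((k:ℝ) * t) * ((k:ℝ) * 1) / (k:ℝ)) := by
      rcases Nat.eq_zero_or_pos k with hk | hk
      · subst hk; simp
      · have : (k:ℝ) ≠ 0 := by exact_mod_cast hk.ne'
        field_simp
    rw [e]
    exact b
  have h3 := h1.add h2
  rw [Finset.sum_neg_distrib, ← sub_eq_add_neg] at h3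
  exact h3

lemma int_piece (N : ℕ) (a b : ℝ) : ∫ t in a..b, EE N t = FF N b - FF N a :=
  intervalIntegral.integral_eq_sub_of_hasDerivAt (fun t _ => FF_deriv N t)
    ((EE_cont N).intervalIntegrable _ _)

lemma sum0 (p h : ℝ) (n : ℕ) :
    ∑ j ∈ Finset.range n, (-1:ℝ)^j * ((p * (((j+1:ℕ):ℝ) * h)/2 - (((j+1:ℕ):ℝ) * h)^2/4)
        - (p * ((j:ℝ) * h)/2 - ((j:ℝ) * h)^2/4))
      = (p*h/2) * ((1 - (-1)^n)/2) + (h^2/4) * ((-1)^n * n) := by
  induction n with
  | zero => simp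
  | succ n ih =>
    rw [Finset.sum_range_succ, ih]
    push_cast
    ring

lemma sumk (N k : ℕ) (hk : k < N) (hk0 : 1 ≤ k) :
    ∑ j ∈ Finset.range N, (-1:ℝ)^j * (Real.cos ((k:ℝ)*(((j+1:ℕ):ℝ) * (Real.pi/N)))
        - Real.cos ((k:ℝ)*((j:ℝ) * (Real.pi/N)))) = 0 := by
  have hNp : (0:ℝ) < N := by exact_mod_cast (by omega : 0 < N)
  set β : ℝ := (k:ℝ) * (Real.pi/N) / 2 with hβ
  have hkp : (0:ℝ) < k := by exact_mod_cast hk0
  have hβ0 : 0 < β := by have := Real.pi_pos; positivity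
  have hβ1 : β < Real.pi / 2 := by
    have h1 : (k:ℝ) < N := by exact_mod_cast hk
    have h2 : (k:ℝ) * (Real.pi/N) < Real.pi := by
      calc (k:ℝ) * (Real.pi/N) < (N:ℝ) * (Real.pi/N) :=
            mul_lt_mul_of_pos_right h1 (div_pos Real.pi_pos hNp)
        _ = Real.pi := by field_simp
    rw [hβ]; linarith
  have hc : 0 < Real.cos β := Real.cos_pos_of_mem_Ioo ⟨by linarith, hβ1⟩
  have hstep : ∀ j : ℕ, Real.cos β * ((-1:ℝ)^j * (Real.cos ((k:ℝ)*(((j+1:ℕ):ℝ) * (Real.pi/N)))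
        - Real.cos ((k:ℝ)*((j:ℝ) * (Real.pi/N)))))
      = Real.sin β * ((-1:ℝ)^(j+1) * Real.sin ((k:ℝ)*(((j+1:ℕ):ℝ) * (Real.pi/N))))
        - Real.sin β * ((-1:ℝ)^j * Real.sin ((k:ℝ)*((j:ℝ) * (Real.pi/N)))) := by
    intro j
    have e : (k:ℝ)*(((j+1:ℕ):ℝ) * (Real.pi/N)) = (k:ℝ)*((j:ℝ) * (Real.pi/N)) + 2 * β := by
      rw [hβ]; push_cast; ring
    rw [e, Real.cos_add, Real.sin_add, Real.cos_two_mul, Real.sin_two_mul]
    set X := Real.cos ((k:ℝ)*((j:ℝ) * (Real.pi/N)))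
    set Y := Real.sin ((k:ℝ)*((j:ℝ) * (Real.pi/N)))
    have hsc : Real.sin β ^ 2 = 1 - Real.cos β ^ 2 := by
      have := Real.sin_sq_add_cos_sq β
      linarith
    have hsc2 : Real.sin β * Real.sin β = 1 - Real.cos β ^ 2 := by rw [← sq]; exact hsc
    rw [pow_succ]
    linear_combination (2 * (-1:ℝ)^j * X * Real.cos β) * hsc
  have hsum : Real.cos β * ∑ j ∈ Finset.range N, (-1:ℝ)^j * (Real.cos ((k:ℝ)*(((j+1:ℕ):ℝ) * (Real.pi/N)))
        - Real.cos ((k:ℝ)*((j:ℝ) * (Real.pi/N)))) = 0 := by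
    rw [Finset.mul_sum, Finset.sum_congr rfl (fun j _ => hstep j)]
    rw [Finset.sum_range_sub (fun j : ℕ => Real.sin β * ((-1:ℝ)^j * Real.sin ((k:ℝ)*((j:ℝ) * (Real.pi/N)))))]
    have e1 : (k:ℝ) * ((N:ℝ) * (Real.pi/N)) = (k:ℝ) * Real.pi := by field_simp
    rw [e1, Real.sin_nat_mul_pi]
    simp
  rcases mul_eq_zero.mp hsum with h | h
  · exact absurd h hc.ne'
  · exact h

theorem stFav : StFav := by
  intro N hN
  refine ⟨BB N, ?_⟩
  have hNp : (0:ℝ) < N := by exact_mod_cast hN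
  have e0 : ((0:ℕ):ℝ) * (Real.pi/N) = 0 := by simp
  have eN : (N:ℝ) * (Real.pi/N) = Real.pi := by field_simp
  have hadj := intervalIntegral.sum_integral_adjacent_intervals
    (f := fun t => |EE N t|) (μ := volume) (a := fun j : ℕ => (j:ℝ) * (Real.pi/N)) (n := N)
    (fun k _ => (EE_cont N).abs.intervalIntegrable _ _)
  have hmain : ∫ t in (0:ℝ)..Real.pi, |EE N t| = Real.pi^2/(4*N) := by
    have h1 : ∫ t in (0:ℝ)..Real.pi, |EE N t|
        = ∑ j ∈ Finset.range N, (-1:ℝ)^j * (FF N (((j+1:ℕ):ℝ) * (Real.pi/N)) - FF N ((j:ℝ) * (Real.pi/N))) := by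
      simp only [e0, eN] at hadj
      rw [← hadj]
      refine Finset.sum_congr rfl (fun j hj => ?_)
      rw [int_abs_piece N j hN (Finset.mem_range.mp hj), int_piece]
    rw [h1]
    have h2 : ∀ j : ℕ, (-1:ℝ)^j * (FF N (((j+1:ℕ):ℝ) * (Real.pi/N)) - FF N ((j:ℝ) * (Real.pi/N)))
        = (-1:ℝ)^j * ((Real.pi * (((j+1:ℕ):ℝ) * (Real.pi/N))/2 - (((j+1:ℕ):ℝ) * (Real.pi/N))^2/4)
        - (Real.pi * ((j:ℝ) * (Real.pi/N))/2 - ((j:ℝ) * (Real.pi/N))^2/4))
        + ∑ k ∈ Finset.range N, (BB N k / k) * ((-1:ℝ)^j * (Real.cos ((k:ℝ)*(((j+1:ℕ):ℝ) * (Real.pi/N)))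
        - Real.cos ((k:ℝ)*((j:ℝ) * (Real.pi/N))))) := by
      intro j
      unfold FF
      have e : ∑ k ∈ Finset.range N, (BB N k / k) * ((-1:ℝ)^j * (Real.cos ((k:ℝ)*(((j+1:ℕ):ℝ) * (Real.pi/N)))
        - Real.cos ((k:ℝ)*((j:ℝ) * (Real.pi/N)))))
        = (-1:ℝ)^j * (∑ k ∈ Finset.range N, BB N k * (Real.cos ((k:ℝ)*(((j+1:ℕ):ℝ) * (Real.pi/N))) / k)
          - ∑ k ∈ Finset.range N, BB N k * (Real.cos ((k:ℝ)*((j:ℝ) * (Real.pi/N))) / k)) := by
        rw [← Finset.sum_sub_distrib, Finset.mul_sum]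
        refine Finset.sum_congr rfl (fun k _ => ?_)
        ring
      rw [e]
      ring
    rw [Finset.sum_congr rfl (fun j _ => h2 j), Finset.sum_add_distrib, sum0, Finset.sum_comm]
    have h3 : ∑ k ∈ Finset.range N, ∑ j ∈ Finset.range N, (BB N k / k) * ((-1:ℝ)^j * (Real.cos ((k:ℝ)*(((j+1:ℕ):ℝ) * (Real.pi/N)))
        - Real.cos ((k:ℝ)*((j:ℝ) * (Real.pi/N))))) = 0 := by
      apply Finset.sum_eq_zero
      intro k hk
      rcases Nat.eq_zero_or_pos k with h | h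
      · subst h; simp
      · rw [← Finset.mul_sum, sumk N k (Finset.mem_range.mp hk) h, mul_zero]
    rw [h3]
    field_simp
    ring
  exact le_of_eq hmain

end Pool.Agent.K7.H48.PC
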