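import Pool.Agent.K7.H48.PC.Stm

set_option autoImplicit false

namespace Pool.Agent.K7.H48.PC

open Set

/-- the cosine sum -/
noncomputable def csum (n : ℕ) (c : ℕ → ℝ) (x : ℝ) : ℝ :=
  ∑ k ∈ Finset.range (n + 1), c k * Real.cos ((k:ℝ) * x)

/-- the algebraic polynomial with the value `csum n c x` at `(1 - cos x) / 2` -/
noncomputable def cpol (n : ℕ) (c : ℕ → ℝ) : Polynomial ℝ :=
  ∑ k ∈ Finset.range (n + 1), Polynomial.C (c k) *
    (Polynomial.Chebyshev.T ℝ (k : ℤ)).comp (1 - 2 * Polynomial.X)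

theorem cpol_eval (n : ℕ) (c : ℕ → ℝ) (x : ℝ) :
    (cpol n c).eval ((1 - Real.cos x) / 2) = csum n c x := by
  unfold cpol csum
  rw [Polynomial.eval_finsetSum]
  refine Finset.sum_congr rfl fun k _ => ?_
  rw [Polynomial.eval_mul, Polynomial.eval_C, Polynomial.eval_comp]
  congr 1
  have h1 : Polynomial.eval ((1 - Real.cos x) / 2) ((1 : Polynomial ℝ) - 2 * Polynomial.X)
      = Real.cos x := by
    simp
    ring
  rw [h1, Polynomial.Chebyshev.T_real_cos]
  push_cast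
  rfl

theorem cheb_deg (k : ℕ) : (Polynomial.Chebyshev.T ℝ (k : ℤ)).natDegree ≤ k := by
  induction k using Nat.strong_induction_on with
  | _ k ih =>
    rcases k with _ | _ | k
    · simp
    · simp
    · have h : ((k + 1 + 1 : ℕ) : ℤ) = (k : ℤ) + 2 := by push_cast; ring
      rw [h, Polynomial.Chebyshev.T_add_two]
      have h1 := ih (k + 1) (by omega)
      have h2 := ih k (by omega)
      have h3 : ((k + 1 : ℕ) : ℤ) = (k : ℤ) + 1 := by push_cast; ring
      rw [h3] at h1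
      refine (Polynomial.natDegree_sub_le _ _).trans (max_le ?_ (h2.trans (by omega)))
      refine Polynomial.natDegree_mul_le.trans ?_
      have h4 : (2 * Polynomial.X : Polynomial ℝ).natDegree ≤ 1 := by
        refine Polynomial.natDegree_mul_le.trans ?_
        have : (2 : Polynomial ℝ).natDegree = 0 := Polynomial.natDegree_ofNat 2
        rw [this, Polynomial.natDegree_X]
      omega

theorem cpol_deg (n : ℕ) (c : ℕ → ℝ) : (cpol n c).degree ≤ (n : WithBot ℕ) := by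
  refine Polynomial.degree_le_of_natDegree_le ?_
  unfold cpol
  refine Polynomial.natDegree_sum_le_of_forall_le _ _ fun k hk => ?_
  refine (Polynomial.natDegree_C_mul_le _ _).trans ?_
  refine Polynomial.natDegree_comp_le.trans ?_
  have h1 : ((1 : Polynomial ℝ) - 2 * Polynomial.X).natDegree ≤ 1 := by
    refine (Polynomial.natDegree_sub_le _ _).trans (max_le (by simp) ?_)
    refine Polynomial.natDegree_mul_le.trans ?_
    have : (2 : Polynomial ℝ).natDegree = 0 := Polynomial.natDegree_ofNat 2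
    rw [this, Polynomial.natDegree_X]
  have h2 := cheb_deg k
  have h3 := Finset.mem_range.1 hk
  calc _ ≤ k * 1 := Nat.mul_le_mul h2 h1
    _ ≤ n := by omega

theorem img_cos : (fun x : ℝ => (1 - Real.cos x) / 2) '' Icc 0 Real.pi = Icc 0 1 := by
  ext t
  constructor
  · rintro ⟨x, _, rfl⟩
    have h1 := Real.cos_le_one x
    have h2 := Real.neg_one_le_cos x
    constructor <;> simp only <;> linarith
  · intro ht
    refine ⟨Real.arccos (1 - 2 * t), ⟨Real.arccos_nonneg _, Real.arccos_le_pi _⟩, ?_⟩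
    simp only
    rw [Real.cos_arccos (by linarith [ht.2]) (by linarith [ht.1])]
    ring

/-- the cosine curve -/
def ccurve (n : ℕ) (c d : ℕ → ℝ) : Set (ℝ × ℝ) :=
  (fun x : ℝ => ((csum n c x, csum n d x) : ℝ × ℝ)) '' Icc 0 Real.pi

theorem ccurve_H (n : ℕ) (c d : ℕ → ℝ) : ccurve n c d ∈ HCurves n := by
  refine ⟨cpol n c, cpol n d, cpol_deg n c, cpol_deg n d, ?_⟩
  rw [← img_cos, image_image]
  unfold ccurve
  refine image_congr fun x _ => ?_
  rw [cpol_eval, cpol_eval]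

theorem trig_eq (n : ℕ) (c : ℕ → ℝ) (x : ℝ) : trigPoly n c (fun _ => 0) x = csum n c x := by
  unfold trigPoly csum
  refine Finset.sum_congr rfl fun k _ => ?_
  ring

theorem csum_refl (n : ℕ) (c : ℕ → ℝ) (x : ℝ) : csum n c (2 * Real.pi - x) = csum n c x := by
  unfold csum
  refine Finset.sum_congr rfl fun k _ => ?_
  congr 1
  rw [mul_sub]
  exact Real.cos_nat_mul_two_pi_sub _ _

theorem ccurve_T (n : ℕ) (c d : ℕ → ℝ) : ccurve n c d ∈ TCurves n := by
  refine ⟨c, fun _ => 0, d, fun _ => 0, ?_⟩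
  ext y
  constructor
  · rintro ⟨x, hx, rfl⟩
    refine ⟨x, ⟨hx.1, by linarith [hx.2, Real.pi_pos]⟩, ?_⟩
    simp only [trig_eq]
  · rintro ⟨x, hx, rfl⟩
    simp only [trig_eq]
    by_cases h : x ≤ Real.pi
    · exact ⟨x, ⟨hx.1, h⟩, rfl⟩
    · refine ⟨2 * Real.pi - x, ⟨by linarith [hx.2], by linarith [not_le.1 h]⟩, ?_⟩
      simp only [csum_refl]

theorem dist_bd (n : ℕ) (hc : StConv) (hg : StGeo) (A : Set (ℝ × ℝ)) (hA : A ∈ Gamma1) :
    ∃ c d : ℕ → ℝ, Metric.hausdorffEDist A (ccurve n c d)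
      ≤ ENNReal.ofReal (1 / (2 * ((n:ℝ) + 1))) := by
  obtain ⟨φ, h1, h2, rfl⟩ := hA
  obtain ⟨f, g, f1, f2, f3, g1, g2, g3, him⟩ := hg φ h1 h2
  have hM : (0:ℝ) ≤ 1 / Real.pi := by positivity
  obtain ⟨M, hMe⟩ : ∃ M : NNReal, (M : ℝ) = 1 / Real.pi := ⟨⟨1 / Real.pi, hM⟩, rfl⟩
  have hf : LipschitzWith M f := by
    refine LipschitzWith.of_dist_le_mul fun x y => ?_
    rw [Real.dist_eq, Real.dist_eq, hMe]
    exact f3 x y
  have hgg : LipschitzWith M g := by
    refine LipschitzWith.of_dist_le_mul fun x y => ?_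
    rw [Real.dist_eq, Real.dist_eq, hMe]
    exact g3 x y
  obtain ⟨c, hcc⟩ := hc (n + 1) (by omega) M f f1 f2 hf
  obtain ⟨d, hdd⟩ := hc (n + 1) (by omega) M g g1 g2 hgg
  have he : (M:ℝ) * Real.pi / (2 * ((n + 1 : ℕ):ℝ)) = 1 / (2 * ((n:ℝ) + 1)) := by
    rw [hMe]
    have := Real.pi_ne_zero
    push_cast
    field_simp
  rw [he] at hcc hdd
  have key : ∀ x, edist ((f x, g x) : ℝ × ℝ) (csum n c x, csum n d x)
      ≤ ENNReal.ofReal (1 / (2 * ((n:ℝ) + 1))) := by
    intro x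
    rw [edist_dist]
    refine ENNReal.ofReal_le_ofReal ?_
    rw [Prod.dist_eq]
    refine max_le ?_ ?_
    · rw [Real.dist_eq]; exact hcc x
    · rw [Real.dist_eq]; exact hdd x
  refine ⟨c, d, ?_⟩
  rw [← him]
  refine Metric.hausdorffEDist_le_of_mem_edist ?_ ?_
  · rintro _ ⟨x, hx, rfl⟩
    exact ⟨_, ⟨x, hx, rfl⟩, key x⟩
  · rintro _ ⟨x, hx, rfl⟩
    refine ⟨_, ⟨x, hx, rfl⟩, ?_⟩
    rw [edist_comm]
    exact key x

theorem lim_bd (u : ℕ → ENNReal)
    (h : ∀ n : ℕ, u n ≤ ENNReal.ofReal (1 / (2 * ((n:ℝ) + 1)))) :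
    Filter.limsup (fun n : ℕ => (n : ENNReal) * u n) Filter.atTop ≤ ENNReal.ofReal (1 / 2) := by
  refine Filter.limsup_le_of_le (by isBoundedDefault) ?_
  refine Filter.Eventually.of_forall fun n => ?_
  calc (n : ENNReal) * u n ≤ (n : ENNReal) * ENNReal.ofReal (1 / (2 * ((n:ℝ) + 1))) := by
        gcongr; exact h n
    _ = ENNReal.ofReal ((n : ℝ) * (1 / (2 * ((n:ℝ) + 1)))) := by
        rw [ENNReal.ofReal_mul (by positivity), ENNReal.ofReal_natCast]
    _ ≤ ENNReal.ofReal (1 / 2) := by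
        refine ENNReal.ofReal_le_ofReal ?_
        have hn : (0:ℝ) ≤ n := Nat.cast_nonneg n
        rw [mul_one_div, div_le_div_iff₀ (by positivity) (by norm_num)]
        linarith

theorem stMain (hc : StConv) (hg : StGeo) : StMain := by
  have hH : ∀ n : ℕ, E (HCurves n) Gamma1 ≤ ENNReal.ofReal (1 / (2 * ((n:ℝ) + 1))) := by
    intro n
    unfold E
    refine iSup₂_le fun A hA => ?_
    obtain ⟨c, d, h⟩ := dist_bd n hc hg A hA
    exact iInf₂_le_of_le _ (ccurve_H n c d) h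
  have hT : ∀ n : ℕ, E (TCurves n) Gamma1 ≤ ENNReal.ofReal (1 / (2 * ((n:ℝ) + 1))) := by
    intro n
    unfold E
    refine iSup₂_le fun A hA => ?_
    obtain ⟨c, d, h⟩ := dist_bd n hc hg A hA
    exact iInf₂_le_of_le _ (ccurve_T n c d) h
  exact ⟨hH, hT, lim_bd _ hH, lim_bd _ hT⟩

end Pool.Agent.K7.H48.PC
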