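import Pool.Agent.K7.H48.PC.VCONT

set_option autoImplicit false

namespace Pool.Agent.K7.H48.PC

open Set Filter Topology

theorem arccosCosLe (x y : ℝ) :
    Real.arccos (Real.cos x) ≤ Real.arccos (Real.cos y) + |x - y| := by
  rcases le_or_gt Real.pi (Real.arccos (Real.cos y) + |x - y|) with h | h
  · exact (Real.arccos_le_pi _).trans h
  · have ha0 := Real.arccos_nonneg (Real.cos y)
    have hh0 := abs_nonneg (x - y)
    have h1 : Real.arccos (Real.cos (Real.arccos (Real.cos y) + |x - y|)) =
        Real.arccos (Real.cos y) + |x - y| := Real.arccos_cos (by linarith) h.le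
    rw [← h1]
    apply Real.arccos_le_arccos
    have h2 : Real.sin (Real.arccos (Real.cos y)) = |Real.sin y| := by
      rw [Real.sin_arccos, Real.abs_sin_eq_sqrt_one_sub_cos_sq]
    have h3 : Real.cos (Real.arccos (Real.cos y)) = Real.cos y :=
      Real.cos_arccos (Real.neg_one_le_cos y) (Real.cos_le_one y)
    rw [Real.cos_add, h2, h3, Real.cos_abs]
    have h4 : Real.cos x = Real.cos y * Real.cos (x - y) - Real.sin y * Real.sin (x - y) := by
      rw [← Real.cos_add]
      congr 1
      ring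
    have h5 : |Real.sin (x - y)| = Real.sin |x - y| := by
      rcases abs_cases (x - y) with ⟨h6, h7⟩ | ⟨h6, h7⟩
      · rw [h6]
        exact abs_of_nonneg (Real.sin_nonneg_of_nonneg_of_le_pi h7 (by linarith))
      · rw [h6, Real.sin_neg]
        exact abs_of_nonpos (Real.sin_nonpos_of_nonpos_of_neg_pi_le h7.le (by linarith))
    have h6 : Real.sin y * Real.sin (x - y) ≤ |Real.sin y| * Real.sin |x - y| := by
      rw [← h5, ← abs_mul]
      exact le_abs_self _
    rw [h4]
    linarith

theorem arccosCosLip' (x y : ℝ) :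
    |Real.arccos (Real.cos x) - Real.arccos (Real.cos y)| ≤ |x - y| := by
  rw [abs_le]
  have h1 := arccosCosLe x y
  have h2 := arccosCosLe y x
  rw [abs_sub_comm y x] at h2
  constructor <;> linarith

theorem dist_le_var {φ : ℝ → EuclideanSpace ℝ (Fin 2)} {s : Set ℝ}
    (hf : LocallyBoundedVariationOn φ s) {a b c : ℝ} (ha : a ∈ s) (hb : b ∈ s) (hc : c ∈ s) :
    dist (φ b) (φ c) ≤ |variationOnFromTo φ s a b - variationOnFromTo φ s a c| := by
  have key : ∀ b c : ℝ, b ∈ s → c ∈ s → b ≤ c →
      dist (φ b) (φ c) ≤ variationOnFromTo φ s a c - variationOnFromTo φ s a b := by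
    intro b c hb hc hbc
    calc dist (φ b) (φ c) ≤ variationOnFromTo φ s b c := by
          rw [variationOnFromTo.eq_of_le φ s hbc, dist_edist]
          apply ENNReal.toReal_mono (hf b c hb hc)
          apply eVariationOn.edist_le φ
          exacts [⟨hb, le_rfl, hbc⟩, ⟨hc, hbc, le_rfl⟩]
      _ = variationOnFromTo φ s a c - variationOnFromTo φ s a b := by
          rw [← variationOnFromTo.add hf ha hb hc, add_sub_cancel_left]
  rcases le_total b c with h | h
  · refine (key b c hb hc h).trans ?_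
    rw [abs_sub_comm]
    exact le_abs_self _
  · rw [dist_comm]
    exact (key c b hc hb h).trans (le_abs_self _)

theorem coord_le (u v : EuclideanSpace ℝ (Fin 2)) (i : Fin 2) : |u i - v i| ≤ dist u v := by
  rw [dist_eq_norm]
  have := PiLp.norm_apply_le (u - v) i
  simpa using this

theorem stGeo : StGeo := by
  intro φ hφ h
  have hb : BoundedVariationOn φ (Icc 0 1) := ne_top_of_le_ne_top ENNReal.one_ne_top h
  have hf : LocallyBoundedVariationOn φ (Icc 0 1) := hb.locallyBoundedVariationOn
  have h0 : (0 : ℝ) ∈ Icc (0 : ℝ) 1 := left_mem_Icc.2 zero_le_one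
  have h1 : (1 : ℝ) ∈ Icc (0 : ℝ) 1 := right_mem_Icc.2 zero_le_one
  set V : ℝ → ℝ := variationOnFromTo φ (Icc 0 1) 0 with hV
  have hVc : ContinuousOn V (Icc 0 1) := vCont φ hφ h
  have hV0 : V 0 = 0 := variationOnFromTo.self φ _ _
  set l : ℝ := V 1 with hl
  have hVm : MonotoneOn V (Icc 0 1) := variationOnFromTo.monotoneOn hf h0
  have hl0 : 0 ≤ l := by
    rw [← hV0]
    exact hVm h0 h1 zero_le_one
  have hl1 : l ≤ 1 := by
    rw [hl, hV, variationOnFromTo.eq_of_le φ _ zero_le_one, inter_self]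
    have := ENNReal.toReal_mono ENNReal.one_ne_top h
    simpa using this
  -- a parameter with given arc length
  have hex : ∀ s : ℝ, s ∈ Icc 0 l → ∃ t ∈ Icc (0 : ℝ) 1, V t = s := by
    intro s hs
    have := intermediate_value_Icc (zero_le_one (α := ℝ)) hVc
    rw [hV0] at this
    obtain ⟨t, ht, ht2⟩ := this hs
    exact ⟨t, ht, ht2⟩
  choose! T hT1 hT2 using hex
  have hdist : ∀ s s' : ℝ, s ∈ Icc 0 l → s' ∈ Icc 0 l → dist (φ (T s)) (φ (T s')) ≤ |s - s'| := by
    intro s s' hs hs'
    have h2 := dist_le_var hf h0 (hT1 s hs) (hT1 s' hs')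
    have h3 : variationOnFromTo φ (Icc 0 1) 0 (T s) = s := hT2 s hs
    have h4 : variationOnFromTo φ (Icc 0 1) 0 (T s') = s' := hT2 s' hs'
    rwa [h3, h4] at h2
  set d : ℝ → ℝ := fun θ => l * (Real.arccos (Real.cos θ) / Real.pi) with hd
  have hpi := Real.pi_pos
  have hdm : ∀ θ, d θ ∈ Icc 0 l := by
    intro θ
    have h2 := Real.arccos_nonneg (Real.cos θ)
    have h3 := Real.arccos_le_pi (Real.cos θ)
    have h4 : Real.arccos (Real.cos θ) / Real.pi ≤ 1 := (div_le_one hpi).2 h3
    exact ⟨mul_nonneg hl0 (div_nonneg h2 hpi.le), mul_le_of_le_one_right hl0 h4⟩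
  have hde : ∀ θ, d (-θ) = d θ := fun θ => by simp only [hd, Real.cos_neg]
  have hdp : ∀ θ, d (θ + 2 * Real.pi) = d θ := fun θ => by simp only [hd, Real.cos_add_two_pi]
  have hdl : ∀ x y, |d x - d y| ≤ (1 / Real.pi) * |x - y| := by
    intro x y
    have h2 := arccosCosLip' x y
    have h3 : d x - d y = l * (1 / Real.pi) *
        (Real.arccos (Real.cos x) - Real.arccos (Real.cos y)) := by
      simp only [hd]
      ring
    rw [h3, abs_mul, abs_of_nonneg (mul_nonneg hl0 (by positivity))]
    calc l * (1 / Real.pi) * |Real.arccos (Real.cos x) - Real.arccos (Real.cos y)|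
        ≤ l * (1 / Real.pi) * |x - y| := mul_le_mul_of_nonneg_left h2 (by positivity)
      _ ≤ 1 * (1 / Real.pi) * |x - y| := by gcongr
      _ = _ := by ring
  have hco : ∀ (i : Fin 2) (x y : ℝ), |φ (T (d x)) i - φ (T (d y)) i| ≤ (1 / Real.pi) * |x - y| :=
    fun i x y => ((coord_le _ _ i).trans (hdist _ _ (hdm x) (hdm y))).trans (hdl x y)
  refine ⟨fun θ => φ (T (d θ)) 0, fun θ => φ (T (d θ)) 1, fun x => ?_, fun x => ?_, hco 0,
    fun x => ?_, fun x => ?_, hco 1, ?_⟩
  · simp only [hde]
  · simp only [hdp]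
  · simp only [hde]
  · simp only [hdp]
  · apply Subset.antisymm
    · rintro _ ⟨θ, -, rfl⟩
      exact ⟨T (d θ), hT1 _ (hdm θ), rfl⟩
    · rintro _ ⟨t, ht, rfl⟩
      have hVt : V t ∈ Icc 0 l := by
        constructor
        · rw [← hV0]; exact hVm h0 ht ht.1
        · exact hVm ht h1 ht.2
      have hθ : Real.pi * (V t / l) ∈ Icc 0 Real.pi := by
        constructor
        · exact mul_nonneg hpi.le (div_nonneg hVt.1 hl0)
        · exact mul_le_of_le_one_right hpi.le (div_le_one_of_le₀ hVt.2 hl0)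
      refine ⟨Real.pi * (V t / l), hθ, ?_⟩
      have h2 : d (Real.pi * (V t / l)) = V t := by
        simp only [hd]
        rw [Real.arccos_cos hθ.1 hθ.2]
        rcases eq_or_lt_of_le hl0 with h3 | h3
        · have h4 : V t = 0 := le_antisymm (by rw [h3]; exact hVt.2) hVt.1
          rw [h4, ← h3]
          simp
        · field_simp
      have h3 : φ (T (V t)) = φ t := by
        have h4 := dist_le_var hf h0 (hT1 _ hVt) ht
        have h5 : variationOnFromTo φ (Icc 0 1) 0 (T (V t)) = variationOnFromTo φ (Icc 0 1) 0 t :=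
          hT2 _ hVt
        rw [h5, sub_self, abs_zero] at h4
        exact dist_le_zero.1 h4
      simp only [h2, h3]

end Pool.Agent.K7.H48.PC
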