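import Pool.Agent.K7.H48.PC.Stm2

/-!
Job LOWER of project PC2 (helper39): the lower bounds from the comb and the meander.
-/

set_option autoImplicit false

namespace Pool.Agent.K7.H48.PC

open Set Filter Topology

/-- from a small Hausdorff distance to closeness of the points -/
theorem lower_close {A B : Set (ℝ × ℝ)} {e : ℝ} (h : Metric.hausdorffEDist A B < ENNReal.ofReal e) :
    ∃ d < e, (∀ z ∈ A, ∃ w ∈ B, |z.1 - w.1| ≤ d ∧ |z.2 - w.2| ≤ d) ∧
      (∀ w ∈ B, ∃ z ∈ A, |z.1 - w.1| ≤ d ∧ |z.2 - w.2| ≤ d) := by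
  obtain ⟨d, hd0, hd1, hd2⟩ := ENNReal.lt_iff_exists_real_btwn.1 h
  have hde : d < e := (ENNReal.ofReal_lt_ofReal_iff_of_nonneg hd0).1 hd2
  have key : ∀ z w : ℝ × ℝ, edist z w < ENNReal.ofReal d → |z.1 - w.1| ≤ d ∧ |z.2 - w.2| ≤ d := by
    intro z w hzw
    have h1 : dist z w < d := by
      rw [edist_dist] at hzw
      exact (ENNReal.ofReal_lt_ofReal_iff_of_nonneg dist_nonneg).1 hzw
    rw [Prod.dist_eq, Real.dist_eq, Real.dist_eq] at h1
    exact ⟨((le_max_left _ _).trans_lt h1).le, ((le_max_right _ _).trans_lt h1).le⟩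
  refine ⟨d, hde, fun z hz => ?_, fun w hw => ?_⟩
  · obtain ⟨w, hw, hzw⟩ := Metric.exists_edist_lt_of_hausdorffEDist_lt hz hd1
    exact ⟨w, hw, key z w hzw⟩
  · rw [Metric.hausdorffEDist_comm] at hd1
    obtain ⟨z, hz, hzw⟩ := Metric.exists_edist_lt_of_hausdorffEDist_lt hw hd1
    rw [edist_comm] at hzw
    exact ⟨z, hz, key z w hzw⟩

theorem lower_H (h1 : StCombIn) (h3 : StCombAlg) (n : ℕ) :
    ENNReal.ofReal (1 / (3 * ((n : ℝ) + 2))) ≤ E (HCurves n) Gamma1 := by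
  set K : ℕ := n / 2 + 1 with hK
  have hKpos : (0 : ℝ) < K := by rw [hK]; positivity
  set e : ℝ := 1 / (6 * K) with he
  have he0 : 0 < e := by rw [he]; positivity
  have hcomb : combSet e K ∈ Gamma1 := h1 e K he0 (by omega) (by rw [he]; field_simp; norm_num)
  have hle : ENNReal.ofReal (1 / (3 * ((n : ℝ) + 2))) ≤ ENNReal.ofReal e := by
    refine ENNReal.ofReal_le_ofReal ?_
    rw [he]
    refine one_div_le_one_div_of_le (by positivity) ?_
    have : (K : ℝ) ≤ n / 2 + 1 := by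
      rw [hK]
      push_cast
      have := Nat.cast_div_le (m := n) (n := 2) (α := ℝ)
      push_cast at this
      linarith
    linarith
  refine hle.trans ?_
  unfold E
  refine le_trans ?_ (le_iSup₂ (f := fun A (_ : A ∈ Gamma1) =>
    ⨅ B ∈ HCurves n, Metric.hausdorffEDist A B) (combSet e K) hcomb)
  refine le_iInf₂ fun B hB => ?_
  by_contra hcon
  push Not at hcon
  obtain ⟨d, hde, hA, hB2⟩ := lower_close hcon
  obtain ⟨P, Q, hP, hQ, rfl⟩ := hB
  have := h3 e d K n P Q he0 hde (by omega) hQ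
    (fun z hz => by
      obtain ⟨w, ⟨t, ht, rfl⟩, hw⟩ := hA z hz
      exact ⟨t, ht, hw⟩)
    (fun t ht => hB2 _ ⟨t, ht, rfl⟩)
  omega

theorem lower_T (h2 : StMeanderIn) (h4 : StMeanderTrig) (n : ℕ) :
    ENNReal.ofReal (1 / (2 * (2 * (n : ℝ) + 1))) ≤ E (TCurves n) Gamma1 := by
  set e : ℝ := 1 / (2 * (2 * (n : ℝ) + 1)) with he
  have he0 : 0 < e := by rw [he]; positivity
  have hin : meanderSet e n ∈ Gamma1 := h2 e n he0 (by rw [he]; field_simp; norm_num)
  unfold E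
  refine le_trans ?_ (le_iSup₂ (f := fun A (_ : A ∈ Gamma1) =>
    ⨅ B ∈ TCurves n, Metric.hausdorffEDist A B) (meanderSet e n) hin)
  refine le_iInf₂ fun B hB => ?_
  by_contra hcon
  push Not at hcon
  obtain ⟨d, hde, hA, hB2⟩ := lower_close hcon
  obtain ⟨a, b, a', b', rfl⟩ := hB
  have := h4 e d n n a b a' b' he0 hde
    (fun z hz => by
      obtain ⟨w, ⟨t, ht, rfl⟩, hw⟩ := hA z hz
      exact ⟨t, ht, hw⟩)
    (fun t ht => hB2 _ ⟨t, ht, rfl⟩)
  omega

theorem lower_limsup {F : ℕ → ENNReal} {a : ℕ → ℝ} {L : ℝ}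
    (ha : ∀ n, ENNReal.ofReal (a n) ≤ F n) (hL : Tendsto (fun n : ℕ => (n : ℝ) * a n) atTop (𝓝 L)) :
    ENNReal.ofReal L ≤ limsup (fun n : ℕ => (n : ENNReal) * F n) atTop := by
  have h1 : Tendsto (fun n : ℕ => ENNReal.ofReal ((n : ℝ) * a n)) atTop (𝓝 (ENNReal.ofReal L)) :=
    (ENNReal.continuous_ofReal.tendsto L).comp hL
  rw [← h1.limsup_eq]
  refine limsup_le_limsup (Eventually.of_forall fun n => ?_)
  change ENNReal.ofReal ((n : ℝ) * a n) ≤ (n : ENNReal) * F n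
  rw [ENNReal.ofReal_mul (Nat.cast_nonneg n), ENNReal.ofReal_natCast]
  gcongr
  exact ha n

theorem stLower (h1 : StCombIn) (h2 : StMeanderIn) (h3 : StCombAlg) (h4 : StMeanderTrig) :
    StLower := by
  have hH := lower_H h1 h3
  have hT := lower_T h2 h4
  refine ⟨hH, hT, ?_, ?_⟩
  · refine lower_limsup hH ?_
    have h5 : Tendsto (fun n : ℕ => (1 / 3 : ℝ) - (2 / 3) * (1 / ((n : ℝ) + 2))) atTop
        (𝓝 ((1 / 3 : ℝ) - (2 / 3) * 0)) := by
      refine tendsto_const_nhds.sub (tendsto_const_nhds.mul ?_)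
      refine tendsto_const_nhds.div_atTop ?_
      exact tendsto_atTop_add_const_right _ _ tendsto_natCast_atTop_atTop
    rw [mul_zero, sub_zero] at h5
    refine h5.congr fun n => ?_
    field_simp
    ring
  · refine lower_limsup hT ?_
    have h5 : Tendsto (fun n : ℕ => (1 / 4 : ℝ) - (1 / 4) * (1 / (2 * (n : ℝ) + 1))) atTop
        (𝓝 ((1 / 4 : ℝ) - (1 / 4) * 0)) := by
      refine tendsto_const_nhds.sub (tendsto_const_nhds.mul ?_)
      refine tendsto_const_nhds.div_atTop ?_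
      refine tendsto_atTop_add_const_right _ _ ?_
      exact Tendsto.const_mul_atTop (by norm_num) tendsto_natCast_atTop_atTop
    rw [mul_zero, sub_zero] at h5
    refine h5.congr fun n => ?_
    field_simp
    ring

end Pool.Agent.K7.H48.PC
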