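import Pool.Agent.K7.H48.PC.COMBIN

/-!
Job MEANIN of project PC2: the meander is in `Gamma1`.
-/

namespace Pool.Agent.K7.H48.PC

open Set

/-- the vertices of the meander -/
noncomputable def mv (e : ℝ) (j : ℕ) : ℝ × ℝ :=
  if j % 2 = 0 then (2 * e * ((j / 2 : ℕ) : ℝ), if Even (j / 2) then 0 else 2 * e)
  else (2 * e * ((j / 2 : ℕ) : ℝ), if Even (j / 2) then 2 * e else 0)

theorem mv0 (e : ℝ) (i : ℕ) : mv e (2 * i) = (2 * e * (i : ℝ), if Even i then 0 else 2 * e) := by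
  have h1 : (2 * i) % 2 = 0 := by omega
  have h2 : (2 * i) / 2 = i := by omega
  simp only [mv, h1, h2, if_true]

theorem mv1 (e : ℝ) (i : ℕ) :
    mv e (2 * i + 1) = (2 * e * (i : ℝ), if Even i then 2 * e else 0) := by
  have h1 : ¬ (2 * i + 1) % 2 = 0 := by omega
  have h2 : (2 * i + 1) / 2 = i := by omega
  simp only [mv, h1, h2, if_false]

theorem mv2 (e : ℝ) (i : ℕ) :
    mv e (2 * i + 2) = (2 * e * ((i : ℝ) + 1), if Even i then 2 * e else 0) := by
  have := mv0 e (i + 1)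
  rw [show 2 * (i + 1) = 2 * i + 2 by ring] at this
  rw [this]
  push_cast
  congr 1
  by_cases hi : Even i
  · simp [hi, Nat.even_add_one]
  · simp [hi, Nat.even_add_one]

theorem mod2_cases (j : ℕ) : ∃ i, j = 2 * i ∨ j = 2 * i + 1 :=
  ⟨j / 2, by omega⟩

/-- a stroke of the meander -/
theorem stroke (e : ℝ) (he : 0 < e) (i : ℕ) :
    segment ℝ (mv e (2 * i)) (mv e (2 * i + 1))
      = {z | z.1 = 2 * e * (i : ℝ) ∧ 0 ≤ z.2 ∧ z.2 ≤ 2 * e} := by
  rw [mv0, mv1]
  by_cases hi : Even i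
  · rw [if_pos hi, if_pos hi, seg_vert _ _ _ (by positivity)]
  · rw [if_neg hi, if_neg hi, segment_symm, seg_vert _ _ _ (by positivity)]

/-- a link of the meander -/
theorem link (e : ℝ) (he : 0 < e) (i : ℕ) :
    segment ℝ (mv e (2 * i + 1)) (mv e (2 * i + 2))
      = {z | z.2 = (if Even i then 2 * e else 0) ∧ 2 * e * (i : ℝ) ≤ z.1 ∧
          z.1 ≤ 2 * e * ((i : ℝ) + 1)} := by
  rw [mv1, mv2, seg_hor _ _ _ (by nlinarith)]

theorem stMeanderIn (h : StPoly) : StMeanderIn := by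
  intro e K he hlen
  have key : meanderSet e K
      = ⋃ j ∈ Finset.range (2 * K + 1), segment ℝ (mv e j) (mv e (j + 1)) := by
    ext z
    simp only [mem_iUnion, Finset.mem_range, exists_prop]
    constructor
    · rintro (⟨i, hi, h1, h2, h3⟩ | ⟨i, hi, h1, h2, h3⟩)
      · refine ⟨2 * i, by omega, ?_⟩
        rw [stroke e he]
        exact ⟨h1, h2, h3⟩
      · refine ⟨2 * i + 1, by omega, ?_⟩
        rw [show 2 * i + 1 + 1 = 2 * i + 2 by rfl, link e he]
        exact ⟨h3, h1, h2⟩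
    · rintro ⟨j, hj, hz⟩
      obtain ⟨i, rfl | rfl⟩ := mod2_cases j
      · rw [stroke e he] at hz
        exact Or.inl ⟨i, by omega, hz.1, hz.2.1, hz.2.2⟩
      · rw [show 2 * i + 1 + 1 = 2 * i + 2 by rfl, link e he] at hz
        exact Or.inr ⟨i, by omega, hz.2.1, hz.2.2, hz.1⟩
  rw [key]
  refine polyIn h (2 * K + 1) (mv e) (2 * e) (by omega) (by positivity) ?_ ?_
  · intro j hj
    obtain ⟨i, rfl | rfl⟩ := mod2_cases j
    · rw [mv0, mv1]
      dsimp only
      by_cases hi : Even i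
      · rw [if_pos hi, if_pos hi]; apply le_of_eq; ring
      · rw [if_neg hi, if_neg hi]; apply le_of_eq; ring
    · rw [show 2 * i + 1 + 1 = 2 * i + 2 by rfl, mv1, mv2]
      dsimp only
      apply le_of_eq; ring
  · push_cast
    linarith

end Pool.Agent.K7.H48.PC
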