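import Pool.Agent.K7.H48.PC.Stm2

/-!
Job MEANTR of project PC2 (helper39): trigonometric curves near the meander.
-/

set_option autoImplicit false

namespace Pool.Agent.K7.H48.PC

open Set

theorem trigPoly_cont (n : ℕ) (a b : ℕ → ℝ) : Continuous (trigPoly n a b) := by
  unfold trigPoly
  fun_prop

theorem trigPoly_per (n : ℕ) (a b : ℕ → ℝ) (t : ℝ) :
    trigPoly n a b (t + 2 * Real.pi) = trigPoly n a b t := by
  unfold trigPoly
  refine Finset.sum_congr rfl fun k _ => ?_
  have h1 : (k : ℝ) * (t + 2 * Real.pi) = k * t + k * (2 * Real.pi) := by ring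
  rw [h1, Real.cos_add_nat_mul_two_pi, Real.sin_add_nat_mul_two_pi]

theorem trigPoly_sub (n : ℕ) (a b : ℕ → ℝ) (e t : ℝ) :
    trigPoly n (Function.update a 0 (a 0 - e)) b t = trigPoly n a b t - e := by
  unfold trigPoly
  rw [Finset.sum_range_succ', Finset.sum_range_succ' (fun k => a k * Real.cos ((k:ℝ) * t) +
    b k * Real.sin ((k:ℝ) * t))]
  simp
  ring

/-- the climbing sequence -/
theorem climb {X : ℝ → ℝ} (hX : Continuous X) {e d : ℝ} (he : 0 < e) (hde : d < e) {K : ℕ}
    {u v : ℝ} (huv : u < v) (hu : X u ≤ d) (hv : 2 * e * K - d ≤ X v) :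
    ∀ k, k ≤ K → ∃ σ : ℕ → ℝ, σ 0 = u ∧ (∀ j, j < k → σ j < σ (j + 1)) ∧
      (∀ i, i < k → X (σ (i + 1)) = (2 * i + 1) * e) ∧ (∀ j, j ≤ k → σ j < v) := by
  intro k
  induction k with
  | zero =>
    intro _
    exact ⟨fun _ => u, rfl, by simp, by simp, fun _ _ => huv⟩
  | succ k ih =>
    intro hk
    obtain ⟨σ, h0, h1, h2, h3⟩ := ih (by omega)
    have hlow : X (σ k) < (2 * k + 1) * e := by
      rcases Nat.eq_zero_or_pos k with hk0 | hk0
      · subst hk0
        rw [h0]
        push_cast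
        linarith
      · obtain ⟨i, rfl⟩ : ∃ i, k = i + 1 := ⟨k - 1, by omega⟩
        rw [h2 i (by omega)]
        push_cast
        nlinarith
    have hhigh : (2 * k + 1) * e < X v := by
      have hkK : (k : ℝ) + 1 ≤ K := by exact_mod_cast hk
      nlinarith
    obtain ⟨w, hw, hwX⟩ := intermediate_value_Ioo (h3 k le_rfl).le hX.continuousOn ⟨hlow, hhigh⟩
    refine ⟨Function.update σ (k + 1) w, ?_, ?_, ?_, ?_⟩
    · rw [Function.update_of_ne (by omega), h0]
    · intro j hj
      rcases Nat.lt_succ_iff_lt_or_eq.1 hj with hj | rfl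
      · rw [Function.update_of_ne (by omega), Function.update_of_ne (by omega)]
        exact h1 j hj
      · rw [Function.update_of_ne (by omega), Function.update_self]
        exact hw.1
    · intro i hi
      rcases Nat.lt_succ_iff_lt_or_eq.1 hi with hi | rfl
      · rw [Function.update_of_ne (by omega)]
        exact h2 i hi
      · rw [Function.update_self]
        exact hwX
    · intro j hj
      rcases Nat.le_succ_iff.1 hj with hj | rfl
      · rw [Function.update_of_ne (by omega)]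
        exact h3 j hj
      · rw [Function.update_self]
        exact hw.2

/-- zeros between the two tips -/
theorem half (h : StAlt) {X Y : ℝ → ℝ} (hX : Continuous X) (hY : Continuous Y) {e d : ℝ}
    (he : 0 < e) (hde : d < e) {K : ℕ}
    (hw : ∀ i : ℕ, i < K → ∀ t, X t = (2 * i + 1) * e → 0 < (-1 : ℝ) ^ i * (Y t - e))
    {u v : ℝ} (huv : u < v) (hu : X u ≤ d) (hu' : Y u < e) (hv : 2 * e * K - d ≤ X v)
    (hv' : 0 < (-1 : ℝ) ^ K * (Y v - e)) :
    ∃ Z : Finset ℝ, Z.card = K + 1 ∧ ∀ z ∈ Z, z ∈ Ioo u v ∧ Y z - e = 0 := by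
  obtain ⟨σ, h0, h1, h2, h3⟩ := climb hX he hde huv hu hv K le_rfl
  set τ := Function.update σ (K + 1) v with hτ
  have hτ0 : τ 0 = u := by rw [hτ, Function.update_of_ne (by omega), h0]
  have hτK : τ (K + 1) = v := by rw [hτ, Function.update_self]
  have hτj : ∀ j, j ≤ K → τ j = σ j := fun j hj => by
    rw [hτ, Function.update_of_ne (by omega)]
  obtain ⟨Z, hZ, hZ2⟩ := h (K + 1) τ (fun t => e - Y t) (continuous_const.sub hY)
    (fun j hj => by
      rcases Nat.lt_succ_iff_lt_or_eq.1 hj with hj | rfl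
      · rw [hτj j (by omega), hτj (j + 1) (by omega)]
        exact h1 j hj
      · rw [hτj _ le_rfl, hτK]
        exact h3 _ le_rfl)
    (fun j hj => by
      rcases Nat.eq_zero_or_pos j with hj0 | hj0
      · subst hj0
        rw [hτ0]
        simpa using hu'
      · obtain ⟨i, rfl⟩ : ∃ i, j = i + 1 := ⟨j - 1, by omega⟩
        rcases Nat.lt_or_ge i K with hi | hi
        · rw [hτj (i + 1) (by omega)]
          have := hw i hi _ (h2 i hi)
          rw [pow_succ]
          linarith
        · have hiK : i = K := by omega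
          subst hiK
          rw [hτK, pow_succ]
          linarith)
  refine ⟨Z, hZ, fun z hz => ?_⟩
  have := hZ2 z hz
  rw [hτ0, hτK] at this
  exact ⟨this.1, by linarith [this.2]⟩

theorem stMeanderTrig (h : StAlt) (h2 : StTrigZ) : StMeanderTrig := by
  intro e d K n a b a' b' he hde hA hB
  set X := trigPoly n a b with hXdef
  set Y := trigPoly n a' b' with hYdef
  have hX : Continuous X := trigPoly_cont n a b
  have hY : Continuous Y := trigPoly_cont n a' b'
  have hXp : ∀ t, X (t + 2 * Real.pi) = X t := trigPoly_per n a b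
  have hYp : ∀ t, Y (t + 2 * Real.pi) = Y t := trigPoly_per n a' b'
  have hpi := Real.pi_pos
  -- closeness for all real parameters
  have hB' : ∀ t : ℝ, ∃ z ∈ meanderSet e K, |z.1 - X t| ≤ d ∧ |z.2 - Y t| ≤ d := by
    intro t
    have hP : Function.Periodic (fun t => (X t, Y t)) (2 * Real.pi) := fun t =>
      Prod.ext (hXp t) (hYp t)
    have h2pi : (0 : ℝ) < 2 * Real.pi := by positivity
    obtain ⟨t', ht', hxt⟩ := hP.exists_mem_Ico₀ h2pi t
    have e1 : X t = X t' := congrArg Prod.fst hxt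
    have e2 : Y t = Y t' := congrArg Prod.snd hxt
    rw [e1, e2]
    exact hB t' ⟨ht'.1, ht'.2.le⟩
  have hd0 : 0 ≤ d := by
    obtain ⟨z, _, hz, _⟩ := hB' 0
    exact (abs_nonneg _).trans hz
  -- walls
  have hwall : ∀ i : ℕ, i < K → ∀ t, X t = (2 * i + 1) * e → 0 < (-1 : ℝ) ^ i * (Y t - e) := by
    intro i _ t ht
    obtain ⟨z, hz, hz1, hz2⟩ := hB' t
    rw [ht] at hz1
    have hz1' := abs_le.1 hz1
    have hz2' := abs_le.1 hz2
    rcases hz with ⟨j, _, hj, _⟩ | ⟨j, _, hj1, hj2, hj3⟩
    · exfalso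
      have c1 : (i : ℝ) < j := by nlinarith
      have c2 : (j : ℝ) < i + 1 := by nlinarith
      have c1' : i < j := by exact_mod_cast c1
      have c2' : j < i + 1 := by exact_mod_cast c2
      omega
    · have c1 : (i : ℝ) < j + 1 := by nlinarith
      have c2 : (j : ℝ) < i + 1 := by nlinarith
      have c1' : i < j + 1 := by exact_mod_cast c1
      have c2' : j < i + 1 := by exact_mod_cast c2
      have hij : j = i := by omega
      subst hij
      rcases Nat.even_or_odd j with hev | hod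
      · rw [if_pos hev] at hj3
        rw [hev.neg_one_pow]
        linarith
      · rw [if_neg (Nat.not_even_iff_odd.2 hod)] at hj3
        rw [hod.neg_one_pow]
        linarith
  -- tips
  obtain ⟨u0, hu0, hx0, hy0⟩ := hA (0, 0) (Or.inl ⟨0, by omega, by simp, le_rfl, by
    simp only; linarith⟩)
  obtain ⟨u1, hu1, hx1, hy1⟩ := hA (2 * e * K, if Even K then 2 * e else 0)
    (Or.inl ⟨K, le_rfl, rfl, by simp only; split_ifs <;> linarith,
      by simp only; split_ifs <;> linarith⟩)
  simp only at hx0 hy0 hx1 hy1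
  have hx0' := abs_le.1 hx0
  have hy0' := abs_le.1 hy0
  have hx1' := abs_le.1 hx1
  have hy1' := abs_le.1 hy1
  have hX0 : X u0 ≤ d := by linarith
  have hY0 : Y u0 < e := by linarith
  have hX1 : 2 * e * K - d ≤ X u1 := by linarith
  have hY1 : 0 < (-1 : ℝ) ^ K * (Y u1 - e) := by
    rcases Nat.even_or_odd K with hev | hod
    · rw [if_pos hev] at hy1'
      rw [hev.neg_one_pow]
      linarith
    · rw [if_neg (Nat.not_even_iff_odd.2 hod)] at hy1'
      rw [hod.neg_one_pow]
      linarith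
  have hne : ¬ (X u1 = X u0 ∧ Y u1 = Y u0) := by
    rintro ⟨e1, e2⟩
    rcases Nat.eq_zero_or_pos K with hK | hK
    · subst hK
      rw [pow_zero, one_mul, e2] at hY1
      linarith
    · have hK1 : (1 : ℝ) ≤ K := by exact_mod_cast hK
      rw [e1] at hX1
      nlinarith
  -- shift
  obtain ⟨v, hv0, hv1, hXv, hYv⟩ : ∃ v, u0 < v ∧ v < u0 + 2 * Real.pi ∧ X v = X u1 ∧ Y v = Y u1 := by
    rcases lt_trichotomy u0 u1 with hlt | heq | hgt
    · refine ⟨u1, hlt, ?_, rfl, rfl⟩
      by_contra hcon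
      push Not at hcon
      have e1 : u1 = u0 + 2 * Real.pi := by
        have := hu1.2
        have := hu0.1
        linarith
      exact hne ⟨by rw [e1, hXp], by rw [e1, hYp]⟩
    · exact absurd ⟨by rw [heq], by rw [heq]⟩ hne
    · refine ⟨u1 + 2 * Real.pi, ?_, by linarith, hXp _, hYp _⟩
      by_contra hcon
      push Not at hcon
      have e1 : u0 = u1 + 2 * Real.pi := by
        have := hu0.2
        have := hu1.1
        linarith
      exact hne ⟨by rw [e1, hXp], by rw [e1, hYp]⟩
  rw [← hXv] at hX1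
  rw [← hYv] at hY1
  obtain ⟨Z1, hZ1, hZ1'⟩ := half h hX hY he hde hwall hv0 hX0 hY0 hX1 hY1
  obtain ⟨Z2, hZ2, hZ2'⟩ := half h (X := fun t => X (-t)) (Y := fun t => Y (-t))
    (hX.comp continuous_neg) (hY.comp continuous_neg) he hde
    (fun i hi t ht => hwall i hi (-t) ht) (u := -(u0 + 2 * Real.pi)) (v := -v) (by linarith)
    (by simp only [neg_neg, hXp]; exact hX0) (by simp only [neg_neg, hYp]; exact hY0)
    (by simp only [neg_neg]; exact hX1) (by simp only [neg_neg]; exact hY1)
  set Z3 := Z2.image (fun z => -z) with hZ3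
  have hZ3c : Z3.card = K + 1 := by
    rw [hZ3, Finset.card_image_of_injective _ neg_injective, hZ2]
  have hZ3' : ∀ z ∈ Z3, z ∈ Ioo v (u0 + 2 * Real.pi) ∧ Y z - e = 0 := by
    intro z hz
    obtain ⟨w, hw, rfl⟩ := Finset.mem_image.1 hz
    obtain ⟨⟨h3, h4⟩, h5⟩ := hZ2' w hw
    exact ⟨⟨by linarith, by linarith⟩, h5⟩
  have hdisj : Disjoint Z1 Z3 := by
    rw [Finset.disjoint_left]
    intro z hz1 hz3
    have := (hZ1' z hz1).1.2
    have := (hZ3' z hz3).1.1
    linarith
  by_contra hcon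
  have hcard : 2 * n < (Z1 ∪ Z3).card := by
    rw [Finset.card_union_of_disjoint hdisj, hZ1, hZ3c]
    omega
  have hzero := h2 n (Function.update a' 0 (a' 0 - e)) b' u0 (Z1 ∪ Z3) hcard (fun z hz => by
    rw [trigPoly_sub]
    rcases Finset.mem_union.1 hz with hz | hz
    · obtain ⟨⟨h3, h4⟩, h5⟩ := hZ1' z hz
      exact ⟨⟨h3.le, by linarith⟩, h5⟩
    · obtain ⟨⟨h3, h4⟩, h5⟩ := hZ3' z hz
      exact ⟨⟨by linarith, h4⟩, h5⟩) u0
  rw [trigPoly_sub] at hzero
  change Y u0 - e = 0 at hzero
  linarith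

end Pool.Agent.K7.H48.PC
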