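import Pool.Agent.K7.H48.PC.Stm2

/-!
Job POLY of project PC2 (helper60): polygons are rectifiable curves.
-/

set_option autoImplicit false

namespace Pool.Agent.K7.H48.PC

open Set

/-- clamp -/
noncomputable def clp (l x : ℝ) : ℝ := max 0 (min x l)

/-- the unit speed segment -/
noncomputable def sgm (p q : EuclideanSpace ℝ (Fin 2)) (s : ℝ) : EuclideanSpace ℝ (Fin 2) :=
  p + (clp (dist p q) s / dist p q) • (q - p)

theorem clp_abs {l : ℝ} (x y : ℝ) : |clp l x - clp l y| ≤ |x - y| := by
  unfold clp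
  have h1 := abs_max_sub_max_le_max 0 (min x l) 0 (min y l)
  have h2 := abs_min_sub_min_le_max x l y l
  rw [sub_self, abs_zero, max_eq_right (abs_nonneg (min x l - min y l))] at h1
  rw [sub_self, abs_zero, max_eq_left (abs_nonneg (x - y))] at h2
  exact h1.trans h2

theorem sgm_dist (p q : EuclideanSpace ℝ (Fin 2)) (s t : ℝ) :
    dist (sgm p q s) (sgm p q t) ≤ |clp (dist p q) s - clp (dist p q) t| := by
  unfold sgm
  rw [dist_add_left, dist_eq_norm, ← sub_smul, norm_smul, ← dist_eq_norm q p, dist_comm q p,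
    Real.norm_eq_abs, ← sub_div, abs_div, abs_of_nonneg (dist_nonneg (x := p) (y := q))]
  rcases eq_or_lt_of_le (dist_nonneg (x := p) (y := q)) with h | h
  · rw [← h]; simp
  · rw [div_mul_cancel₀ _ h.ne']

theorem sgm_le (p q : EuclideanSpace ℝ (Fin 2)) {s : ℝ} (hs : s ≤ 0) : sgm p q s = p := by
  unfold sgm clp
  rw [max_eq_left ((min_le_left _ _).trans hs)]
  simp

theorem sgm_end (p q : EuclideanSpace ℝ (Fin 2)) : sgm p q (dist p q) = q := by
  unfold sgm clp
  rw [min_self, max_eq_right dist_nonneg]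
  rcases eq_or_lt_of_le (dist_nonneg (x := p) (y := q)) with h | h
  · rw [← h, eq_of_dist_eq_zero h.symm]; simp
  · rw [div_self h.ne', one_smul, add_sub_cancel]

theorem sgm_image (p q : EuclideanSpace ℝ (Fin 2)) :
    sgm p q '' Icc 0 (dist p q) = segment ℝ p q := by
  rw [segment_eq_image']
  rcases eq_or_lt_of_le (dist_nonneg (x := p) (y := q)) with h | h
  · have hpq : p = q := eq_of_dist_eq_zero h.symm
    subst hpq
    ext z
    simp only [mem_image, mem_Icc, dist_self, sub_self, smul_zero, add_zero]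
    constructor
    · rintro ⟨s, hs, rfl⟩
      exact ⟨0, ⟨le_refl _, zero_le_one⟩, (sgm_le p p hs.2).symm⟩
    · rintro ⟨s, hs, rfl⟩
      exact ⟨0, ⟨le_refl _, le_refl _⟩, sgm_le p p (le_refl _)⟩
  · ext z
    simp only [mem_image, mem_Icc]
    constructor
    · rintro ⟨s, hs, rfl⟩
      refine ⟨s / dist p q, ⟨div_nonneg hs.1 h.le, (div_le_one h).mpr hs.2⟩, ?_⟩
      unfold sgm clp
      rw [min_eq_left hs.2, max_eq_right hs.1]
    · rintro ⟨θ, hθ, rfl⟩
      refine ⟨θ * dist p q, ⟨mul_nonneg hθ.1 h.le, mul_le_of_le_one_left h.le hθ.2⟩, ?_⟩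
      unfold sgm clp
      rw [min_eq_left (mul_le_of_le_one_left h.le hθ.2), max_eq_right (mul_nonneg hθ.1 h.le),
        mul_div_cancel_right₀ _ h.ne']

theorem key_abs {a l s t : ℝ} (hst : s ≤ t) :
    |min s a - min t a| + |clp l (s - a) - clp l (t - a)| ≤ t - s := by
  rcases le_total t a with h | h
  · have h1 : clp l (s - a) = 0 := by
      unfold clp
      exact max_eq_left ((min_le_left _ _).trans (by linarith))
    have h2 : clp l (t - a) = 0 := by
      unfold clp
      exact max_eq_left ((min_le_left _ _).trans (by linarith))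
    rw [h1, h2, min_eq_left h, min_eq_left (hst.trans h), sub_self, abs_zero, add_zero,
      abs_sub_comm, abs_of_nonneg (by linarith)]
  · rcases le_total a s with h' | h'
    · rw [min_eq_right h, min_eq_right h', sub_self, abs_zero, zero_add]
      refine (clp_abs _ _).trans ?_
      rw [abs_sub_comm, show t - a - (s - a) = t - s by ring, abs_of_nonneg (by linarith)]
    · have h1 : clp l (s - a) = clp l 0 := by
        unfold clp
        rw [max_eq_left ((min_le_left _ _).trans (by linarith)),
          max_eq_left (min_le_left _ _)]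
      rw [h1, min_eq_right h, min_eq_left h']
      have h2 := clp_abs (l := l) 0 (t - a)
      rw [zero_sub, abs_neg, abs_of_nonneg (by linarith : (0 : ℝ) ≤ t - a)] at h2
      rw [abs_sub_comm s a, abs_of_nonneg (by linarith : (0 : ℝ) ≤ a - s)]
      linarith

theorem path (v : ℕ → EuclideanSpace ℝ (Fin 2)) (m : ℕ) :
    ∃ γ : ℝ → EuclideanSpace ℝ (Fin 2), (∀ s t, dist (γ s) (γ t) ≤ |s - t|) ∧
      γ (∑ j ∈ Finset.range m, dist (v j) (v (j+1))) = v m ∧
      γ '' Icc 0 (∑ j ∈ Finset.range m, dist (v j) (v (j+1)))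
        = {v 0} ∪ ⋃ j ∈ Finset.range m, segment ℝ (v j) (v (j+1)) := by
  induction m with
  | zero =>
    refine ⟨fun _ => v 0, fun s t => by rw [dist_self]; exact abs_nonneg _, rfl, ?_⟩
    simp
  | succ m ih =>
    obtain ⟨γ, hγ, hm, him⟩ := ih
    rw [Finset.sum_range_succ]
    set a := ∑ j ∈ Finset.range m, dist (v j) (v (j+1)) with ha
    have ha0 : 0 ≤ a := Finset.sum_nonneg fun _ _ => dist_nonneg
    set l := dist (v m) (v (m + 1)) with hl
    have hl0 : 0 ≤ l := dist_nonneg
    have e1 : ∀ s, s ≤ a → γ (min s a) + (sgm (v m) (v (m+1)) (s - a) - v m) = γ s := by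
      intro s hs
      rw [min_eq_left hs, sgm_le _ _ (by linarith), sub_self, add_zero]
    have e2 : ∀ s, a ≤ s → γ (min s a) + (sgm (v m) (v (m+1)) (s - a) - v m)
        = sgm (v m) (v (m+1)) (s - a) := by
      intro s hs
      rw [min_eq_right hs, hm, add_sub_cancel]
    refine ⟨fun s => γ (min s a) + (sgm (v m) (v (m+1)) (s - a) - v m), ?_, ?_, ?_⟩
    · have main : ∀ s t, s ≤ t → dist (γ (min s a) + (sgm (v m) (v (m+1)) (s - a) - v m))
          (γ (min t a) + (sgm (v m) (v (m+1)) (t - a) - v m)) ≤ t - s := by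
        intro s t hst
        refine (dist_add_add_le _ _ _ _).trans ?_
        rw [dist_sub_right]
        refine le_trans (add_le_add (hγ _ _) (sgm_dist _ _ _ _)) (key_abs hst)
      intro s t
      rcases le_total s t with h | h
      · rw [abs_sub_comm, abs_of_nonneg (by linarith)]
        exact main s t h
      · rw [dist_comm, abs_of_nonneg (by linarith)]
        exact main t s h
    · show γ (min (a + l) a) + (sgm (v m) (v (m+1)) (a + l - a) - v m) = v (m + 1)
      rw [e2 _ (by linarith), add_sub_cancel_left, hl, sgm_end]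
    · rw [Finset.range_add_one, Finset.set_biUnion_insert, union_comm (segment ℝ _ _),
        ← union_assoc, ← him, ← sgm_image]
      ext z
      simp only [mem_image, mem_union, mem_Icc]
      constructor
      · rintro ⟨s, hs, rfl⟩
        rcases le_total s a with h | h
        · left
          exact ⟨s, ⟨hs.1, h⟩, (e1 s h).symm⟩
        · right
          exact ⟨s - a, ⟨by linarith, by linarith [hs.2]⟩, (e2 s h).symm⟩
      · rintro (⟨s, hs, rfl⟩ | ⟨s, hs, rfl⟩)
        · exact ⟨s, ⟨hs.1, by linarith [hs.2]⟩, e1 s hs.2⟩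
        · refine ⟨s + a, ⟨by linarith [hs.1], by linarith [hs.2]⟩, ?_⟩
          rw [e2 _ (by linarith [hs.1]), add_sub_cancel_right]

/-- **JOB POLY.** -/
theorem stPoly : StPoly := by
  intro m v hm hL
  obtain ⟨γ, hγ, -, him⟩ := path v m
  set L := ∑ j ∈ Finset.range m, dist (v j) (v (j+1)) with hLd
  have hL0 : 0 ≤ L := Finset.sum_nonneg fun _ _ => dist_nonneg
  have hlip : LipschitzWith 1 (fun t => γ (min t L)) := by
    apply LipschitzWith.of_dist_le_mul
    intro s t
    refine (hγ _ _).trans ?_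
    have h2 := abs_min_sub_min_le_max s L t L
    simp only [sub_self, abs_zero] at h2
    rw [max_eq_left (abs_nonneg _)] at h2
    rw [Real.dist_eq]
    simpa using h2
  refine ⟨fun t => γ (min t L), hlip.continuous.continuousOn, ?_, ?_⟩
  · have h1 := (hlip.lipschitzOnWith (s := univ)).comp_eVariationOn_le
      (g := fun t : ℝ => t) (s := Icc (0:ℝ) 1) (fun _ _ => mem_univ _)
    have h2 : eVariationOn (fun t : ℝ => t) (Icc (0:ℝ) 1) ≤ 1 := by
      have h3 := ((monotone_id : Monotone (fun t : ℝ => t)).monotoneOn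
        (Icc (0:ℝ) 1)).eVariationOn_eq
        (a := 0) (b := 1) ⟨le_refl _, zero_le_one⟩ ⟨zero_le_one, le_refl _⟩
      rw [inter_self] at h3
      refine le_of_eq (Eq.trans h3 ?_)
      simp
    calc eVariationOn (fun t => γ (min t L)) (Icc 0 1)
        ≤ ((1 : NNReal) : ENNReal) * eVariationOn (fun t : ℝ => t) (Icc (0:ℝ) 1) := h1
      _ ≤ 1 * 1 := by
          gcongr
          simp
      _ = 1 := one_mul 1
  · have e : (fun t => γ (min t L)) '' Icc 0 1 = γ '' Icc 0 L := by
      ext z
      simp only [mem_image, mem_Icc]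
      constructor
      · rintro ⟨t, ht, rfl⟩
        exact ⟨min t L, ⟨le_min ht.1 hL0, min_le_right _ _⟩, rfl⟩
      · rintro ⟨t, ht, rfl⟩
        exact ⟨t, ⟨ht.1, ht.2.trans hL⟩, by rw [min_eq_left ht.2]⟩
    rw [e, him]
    apply union_eq_self_of_subset_left
    rw [singleton_subset_iff, mem_iUnion₂]
    exact ⟨0, Finset.mem_range.mpr (by omega), left_mem_segment ℝ _ _⟩

end Pool.Agent.K7.H48.PC
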