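import Pool.Agent.K7.H48.PC.Stm

/-!
Lower bounds (MP_d7cd59_an): comb for algebraic curves, meander for trigonometric curves.
-/

namespace Pool.Agent.K7.H48.PC

open Set

/-- polygons are rectifiable curves -/
def StPoly : Prop := ∀ (m : ℕ) (v : ℕ → EuclideanSpace ℝ (Fin 2)),
  1 ≤ m → (∑ j ∈ Finset.range m, dist (v j) (v (j+1))) ≤ 1 →
  ∃ φ : ℝ → EuclideanSpace ℝ (Fin 2), ContinuousOn φ (Icc 0 1) ∧ eVariationOn φ (Icc 0 1) ≤ 1 ∧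
    φ '' Icc 0 1 = ⋃ j ∈ Finset.range m, segment ℝ (v j) (v (j+1))

/-- the comb with `K + 1` teeth of length `2 e` at distance `2 e`, total length `6 e K` -/
def combSet (e : ℝ) (K : ℕ) : Set (ℝ × ℝ) :=
  {z | ∃ i : ℕ, i ≤ K ∧ z.1 = 2 * e * i ∧ 0 ≤ z.2 ∧ z.2 ≤ 2 * e} ∪
  {z | z.2 = 0 ∧ 0 ≤ z.1 ∧ z.1 ≤ 2 * e * K}

/-- the meander: vertical strokes `0, ..., K` of length `2 e` at distance `2 e`, joined alternately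
at the top (after strokes with even number) and at the bottom; total length `2 e (2 K + 1)` -/
def meanderSet (e : ℝ) (K : ℕ) : Set (ℝ × ℝ) :=
  {z | ∃ i : ℕ, i ≤ K ∧ z.1 = 2 * e * i ∧ 0 ≤ z.2 ∧ z.2 ≤ 2 * e} ∪
  {z | ∃ i : ℕ, i < K ∧ 2 * e * i ≤ z.1 ∧ z.1 ≤ 2 * e * (i + 1) ∧
    z.2 = if Even i then 2 * e else 0}

/-- the comb is in `Gamma1` if `6 e K ≤ 1` -/
def StCombIn : Prop := ∀ (e : ℝ) (K : ℕ), 0 < e → 1 ≤ K → 6 * e * K ≤ 1 → combSet e K ∈ Gamma1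

/-- the meander is in `Gamma1` if `2 e (2 K + 1) ≤ 1` -/
def StMeanderIn : Prop := ∀ (e : ℝ) (K : ℕ), 0 < e → 2 * e * (2 * K + 1) ≤ 1 →
  meanderSet e K ∈ Gamma1

/-- alternation gives zeros -/
def StAlt : Prop := ∀ (m : ℕ) (s : ℕ → ℝ) (f : ℝ → ℝ), Continuous f →
  (∀ j, j < m → s j < s (j + 1)) → (∀ j, j ≤ m → 0 < (-1:ℝ) ^ j * f (s j)) →
  ∃ Z : Finset ℝ, Z.card = m ∧ ∀ z ∈ Z, z ∈ Ioo (s 0) (s m) ∧ f z = 0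

/-- zeros of trigonometric polynomials -/
def StTrigZ : Prop := ∀ (n : ℕ) (a b : ℕ → ℝ) (u : ℝ) (Z : Finset ℝ), 2 * n < Z.card →
  (∀ z ∈ Z, z ∈ Ico u (u + 2 * Real.pi) ∧ trigPoly n a b z = 0) → ∀ t, trigPoly n a b t = 0

/-- algebraic curves near the comb (from StAlt): `d < e`, the curve and the comb are `d`-close -/
def StCombAlg : Prop := ∀ (e d : ℝ) (K n : ℕ) (P Q : Polynomial ℝ), 0 < e → d < e → 1 ≤ K →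
  Q.degree ≤ (n : WithBot ℕ) →
  (∀ z ∈ combSet e K, ∃ t ∈ Icc (0:ℝ) 1, |z.1 - P.eval t| ≤ d ∧ |z.2 - Q.eval t| ≤ d) →
  (∀ t ∈ Icc (0:ℝ) 1, ∃ z ∈ combSet e K, |z.1 - P.eval t| ≤ d ∧ |z.2 - Q.eval t| ≤ d) →
  2 * K ≤ n

/-- trigonometric curves near the meander (from StAlt, StTrigZ) -/
def StMeanderTrig : Prop := ∀ (e d : ℝ) (K n : ℕ) (a b a' b' : ℕ → ℝ), 0 < e → d < e →
  (∀ z ∈ meanderSet e K, ∃ t ∈ Icc (0:ℝ) (2 * Real.pi),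
    |z.1 - trigPoly n a b t| ≤ d ∧ |z.2 - trigPoly n a' b' t| ≤ d) →
  (∀ t ∈ Icc (0:ℝ) (2 * Real.pi), ∃ z ∈ meanderSet e K,
    |z.1 - trigPoly n a b t| ≤ d ∧ |z.2 - trigPoly n a' b' t| ≤ d) →
  K + 1 ≤ n

/-- the lower bounds -/
def StLower : Prop :=
  (∀ n : ℕ, ENNReal.ofReal (1 / (3 * ((n:ℝ) + 2))) ≤ E (HCurves n) Gamma1) ∧
  (∀ n : ℕ, ENNReal.ofReal (1 / (2 * (2 * (n:ℝ) + 1))) ≤ E (TCurves n) Gamma1) ∧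
  ENNReal.ofReal (1 / 3) ≤ c3 ∧ ENNReal.ofReal (1 / 4) ≤ c4

end Pool.Agent.K7.H48.PC
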