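import Pool.Agent.K7.H48.PC.Stm2

set_option autoImplicit false

/-!
Zeros of trigonometric polynomials (job TRIGZ, written by helper78).
-/

namespace Pool.Agent.K7.H48.PC

open Set Polynomial

/-- the algebraic polynomial of a trigonometric polynomial -/
noncomputable def trigzP (n : ℕ) (a b : ℕ → ℝ) : ℂ[X] :=
  ∑ k ∈ Finset.range (n + 1), (C (((a k : ℂ) - b k * Complex.I) / 2) * X ^ (n + k) +
    C (((a k : ℂ) + b k * Complex.I) / 2) * X ^ (n - k))

theorem trigzP_eval (n : ℕ) (a b : ℕ → ℝ) (t : ℝ) :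
    (trigzP n a b).eval (Complex.exp (t * Complex.I)) =
      Complex.exp (t * Complex.I) ^ n * ((trigPoly n a b t : ℝ) : ℂ) := by
  unfold trigzP trigPoly
  rw [Polynomial.eval_finsetSum, Complex.ofReal_sum, Finset.mul_sum]
  refine Finset.sum_congr rfl fun k hk => ?_
  have hk' : k ≤ n := Nat.lt_succ_iff.1 (Finset.mem_range.1 hk)
  simp only [eval_add, eval_mul, eval_C, eval_pow, eval_X]
  have hw0 : Complex.exp (t * Complex.I) ≠ 0 := Complex.exp_ne_zero _
  have h1 : Complex.exp (t * Complex.I) ^ (n - k) =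
      Complex.exp (t * Complex.I) ^ n * (Complex.exp (t * Complex.I) ^ k)⁻¹ := by
    rw [pow_sub₀ _ hw0 hk']
  have e1 : Complex.exp (t * Complex.I) ^ k = Complex.exp ((k:ℂ) * t * Complex.I) := by
    rw [← Complex.exp_nat_mul]
    congr 1
    ring
  have e2 : (Complex.exp (t * Complex.I) ^ k)⁻¹ = Complex.exp (-((k:ℂ) * t) * Complex.I) := by
    rw [e1, ← Complex.exp_neg]
    congr 1
    ring
  have h2 : Complex.cos ((k:ℂ) * t) = (Complex.exp (t * Complex.I) ^ k +
      (Complex.exp (t * Complex.I) ^ k)⁻¹) / 2 := by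
    rw [e2, e1, Complex.cos]
  have h3 : Complex.sin ((k:ℂ) * t) = ((Complex.exp (t * Complex.I) ^ k)⁻¹ -
      Complex.exp (t * Complex.I) ^ k) * Complex.I / 2 := by
    rw [e2, e1, Complex.sin]
  rw [h1, pow_add]
  push_cast
  rw [h2, h3]
  ring

theorem trigzP_deg (n : ℕ) (a b : ℕ → ℝ) : (trigzP n a b).natDegree ≤ 2 * n := by
  unfold trigzP
  refine Polynomial.natDegree_sum_le_of_forall_le _ _ fun k hk => ?_
  have hk' : k ≤ n := Nat.lt_succ_iff.1 (Finset.mem_range.1 hk)
  refine (Polynomial.natDegree_add_le _ _).trans (max_le ?_ ?_)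
  · exact (Polynomial.natDegree_C_mul_X_pow_le _ _).trans (by omega)
  · exact (Polynomial.natDegree_C_mul_X_pow_le _ _).trans (by omega)

theorem stTrigZ : StTrigZ := by
  intro n a b u Z hZ hz t
  have hinj : Set.InjOn (fun z : ℝ => Complex.exp (z * Complex.I)) (Z : Set ℝ) := by
    intro x hx y hy hxy
    obtain ⟨m, hm⟩ := Complex.exp_eq_exp_iff_exists_int.1 hxy
    have h1 : (x : ℂ) = ((y + m * (2 * Real.pi) : ℝ) : ℂ) := by
      have h2 : (x : ℂ) * Complex.I = ((y + m * (2 * Real.pi) : ℝ) : ℂ) * Complex.I := by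
        rw [hm]
        push_cast
        ring
      exact mul_right_cancel₀ Complex.I_ne_zero h2
    have h3 : x = y + m * (2 * Real.pi) := Complex.ofReal_injective h1
    have hx' := (hz x hx).1
    have hy' := (hz y hy).1
    have hpi := Real.pi_pos
    have h4 : m = 0 := by
      by_contra hne
      rcases lt_or_gt_of_ne hne with h | h
      · have h5 : (m:ℝ) ≤ -1 := by exact_mod_cast (by omega : m ≤ -1)
        nlinarith [hx'.1, hy'.2]
      · have h5 : (1:ℝ) ≤ m := by exact_mod_cast (by omega : 1 ≤ m)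
        nlinarith [hx'.2, hy'.1]
    rw [h3, h4]
    simp
  have hp : trigzP n a b = 0 := by
    refine Polynomial.eq_zero_of_natDegree_lt_card_of_eval_eq_zero' (trigzP n a b)
      (Z.image fun z : ℝ => Complex.exp (z * Complex.I)) ?_ ?_
    · intro w hw
      obtain ⟨z, hzZ, rfl⟩ := Finset.mem_image.1 hw
      rw [trigzP_eval, (hz z hzZ).2]
      simp
    · rw [Finset.card_image_of_injOn hinj]
      exact lt_of_le_of_lt (trigzP_deg n a b) hZ
  have h := trigzP_eval n a b t
  rw [hp, Polynomial.eval_zero] at h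
  have h2 : ((trigPoly n a b t : ℝ) : ℂ) = 0 := by
    rcases mul_eq_zero.1 h.symm with h3 | h3
    · exact absurd h3 (pow_ne_zero _ (Complex.exp_ne_zero _))
    · exact h3
  exact_mod_cast h2

end Pool.Agent.K7.H48.PC
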