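import Pool.Agent.K7.H48.PC.Stm

set_option autoImplicit false

namespace Pool.Agent.K7.H48.PC

open Set Filter Topology

theorem vCont : ∀ φ : ℝ → EuclideanSpace ℝ (Fin 2), ContinuousOn φ (Icc 0 1) →
    eVariationOn φ (Icc 0 1) ≤ 1 → ContinuousOn (variationOnFromTo φ (Icc 0 1) 0) (Icc 0 1) := by
  intro φ hφ h
  have hf : LocallyBoundedVariationOn φ (Icc 0 1) :=
    BoundedVariationOn.locallyBoundedVariationOn (ne_top_of_le_ne_top ENNReal.one_ne_top h)
  intro b hb
  have h0 : (0 : ℝ) ∈ Icc (0 : ℝ) 1 := left_mem_Icc.2 zero_le_one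
  have hl := variationOnFromTo.tendsto_left h0 hb hf
    ((hφ b hb).mono_left (nhdsWithin_mono b (inter_subset_left (t := Iio b))))
  have hr := variationOnFromTo.tendsto_right h0 hb hf
    ((hφ b hb).mono_left (nhdsWithin_mono b (inter_subset_left (t := Ioi b))))
  simp only [dist_self, sub_zero, add_zero] at hl hr
  have e : Icc (0 : ℝ) 1 ⊆ ((Icc (0 : ℝ) 1 ∩ Iio b) ∪ {b}) ∪ (Icc (0 : ℝ) 1 ∩ Ioi b) := by
    intro x hx
    rcases lt_trichotomy x b with h1 | h1 | h1
    · exact Or.inl (Or.inl ⟨hx, h1⟩)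
    · exact Or.inl (Or.inr h1)
    · exact Or.inr ⟨hx, h1⟩
  exact ((ContinuousWithinAt.union (ContinuousWithinAt.union hl continuousWithinAt_singleton)
    hr)).mono e

end Pool.Agent.K7.H48.PC
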